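import Mathlib
import Pool.Agent.W218.MU.Loc
import Pool.Agent.H305R2.MertensE

set_option autoImplicit false

/-!
# Singular series of primitive linear forms: bounds from below, and the sieve product

For primitive linear forms `a n + h`, `(a, h) ∈ T`, with singular series `SL T` (library `W218.MU`):
`∏_{p ≤ y} (1 - w p / p) ≤ C (SL T) / (log y) ^ |T|` and `SL T ≥ c` if there is no local
obstruction; the constants depend on the number of forms only.
-/

namespace Pool.Agent.Y840.PT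

open Finset Filter Topology
open Pool.Agent.W218.MU (w loc SL Prim w_le w_le_p SL_hasProd loc_nonneg)

lemma pow_le_quad (l : ℕ) (x : ℝ) (h0 : 0 ≤ x) (h1 : x ≤ 1) :
    (1 - x) ^ l ≤ 1 - l * x + (l * x) ^ 2 := by
  induction l with
  | zero => simp
  | succ l ih =>
    have h2 : (1 - x) ^ (l + 1) ≤ (1 - l * x + (l * x) ^ 2) * (1 - x) := by
      rw [pow_succ]
      exact mul_le_mul_of_nonneg_right ih (by linarith)
    refine h2.trans ?_
    have hl : (0 : ℝ) ≤ l := Nat.cast_nonneg l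
    push_cast
    nlinarith [mul_nonneg hl h0, mul_nonneg (mul_nonneg hl h0) h0,
      mul_nonneg (pow_nonneg (mul_nonneg hl h0) 2) h0, sq_nonneg x,
      mul_nonneg hl (sq_nonneg x)]

lemma loc_ge {T : Finset (ℕ × ℕ)} (hT : Prim T) {p : ℕ} (hp : p.Prime) (h : 2 * T.card ≤ p) :
    1 - 2 * (T.card : ℝ) ^ 2 / (p : ℝ) ^ 2 ≤ loc T p := by
  have hp0 : (0 : ℝ) < p := by exact_mod_cast hp.pos
  have hp2 : (2 : ℝ) ≤ p := by exact_mod_cast hp.two_le
  have hl : (0 : ℝ) ≤ T.card := Nat.cast_nonneg _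
  have hw : (w T p : ℝ) ≤ T.card := by exact_mod_cast w_le hT hp
  set l : ℝ := (T.card : ℝ) with hldef
  set x : ℝ := 1 / (p : ℝ) with hx
  have hx0 : 0 ≤ x := by positivity
  have hx1 : x ≤ 1 := by rw [hx, div_le_one hp0]; linarith
  have hu : l * x ≤ 1 / 2 := by
    have h3 : (2 : ℝ) * T.card ≤ p := by exact_mod_cast h
    rw [hx, mul_one_div, div_le_iff₀ hp0]
    linarith
  have hu0 : 0 ≤ l * x := by positivity
  have hq := pow_le_quad T.card x hx0 hx1
  have hden : 0 < (1 - x) ^ T.card := by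
    apply pow_pos
    have : x ≤ 1 / 2 := by rw [hx]; exact one_div_le_one_div_of_le (by norm_num) hp2
    linarith
  unfold loc
  rw [le_div_iff₀ (by rw [← hx]; exact hden)]
  rw [← hx]
  have e1 : 2 * l ^ 2 / (p : ℝ) ^ 2 = 2 * (l * x) ^ 2 := by
    rw [hx]; field_simp
  rw [e1]
  have e2 : (w T p : ℝ) / p ≤ l * x := by
    rw [hx, mul_one_div]
    exact div_le_div_of_nonneg_right hw hp0.le
  have h5 : (1 - 2 * (l * x) ^ 2) * (1 - x) ^ T.card ≤
      (1 - 2 * (l * x) ^ 2) * (1 - l * x + (l * x) ^ 2) := by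
    apply mul_le_mul_of_nonneg_left hq
    nlinarith
  refine h5.trans ?_
  have h6 : (1 - 2 * (l * x) ^ 2) * (1 - l * x + (l * x) ^ 2) ≤ 1 - l * x := by
    nlinarith [sq_nonneg (l * x), mul_nonneg (sq_nonneg (l * x)) (sq_nonneg (l * x - 1 / 2)),
      mul_nonneg (sq_nonneg (l * x)) hu0]
  linarith

lemma one_sub_sum_le (S : Finset ℕ) (f : ℕ → ℝ) (h0 : ∀ p ∈ S, 0 ≤ f p) (h1 : ∀ p ∈ S, f p ≤ 1) :
    1 - ∑ p ∈ S, f p ≤ ∏ p ∈ S, (1 - f p) := by
  classical
  induction S using Finset.induction_on with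
  | empty => simp
  | insert a S ha ih =>
    rw [sum_insert ha, prod_insert ha]
    have i1 := ih (fun p hp => h0 p (mem_insert_of_mem hp)) (fun p hp => h1 p (mem_insert_of_mem hp))
    have i2 := h0 a (mem_insert_self _ _)
    have i3 := h1 a (mem_insert_self _ _)
    have i4 : ∏ p ∈ S, (1 - f p) ≤ 1 := by
      apply prod_le_one
      · intro p hp
        have := h1 p (mem_insert_of_mem hp)
        linarith
      · intro p hp
        have := h0 p (mem_insert_of_mem hp)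
        linarith
    nlinarith

lemma sum_inv_sq (S : Finset ℕ) (y : ℕ) (hy : 1 ≤ y) (hS : ∀ p ∈ S, y < p) :
    ∑ p ∈ S, 1 / (p : ℝ) ^ 2 ≤ 1 / (y : ℝ) := by
  classical
  obtain ⟨N, hN⟩ : ∃ N : ℕ, ∀ p ∈ S, p ≤ N := ⟨S.sup id, fun p hp => le_sup (f := id) hp⟩
  have hsub : S ⊆ Ioc y (max N y) := by
    intro p hp
    rw [mem_Ioc]
    exact ⟨hS p hp, (hN p hp).trans (le_max_left _ _)⟩
  refine (sum_le_sum_of_subset_of_nonneg hsub (fun _ _ _ => by positivity)).trans ?_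
  have key : ∀ M : ℕ, y ≤ M → ∑ p ∈ Ioc y M, 1 / (p : ℝ) ^ 2 ≤ 1 / (y : ℝ) - 1 / (M : ℝ) := by
    intro M hM
    induction M, hM using Nat.le_induction with
    | base => simp
    | succ M hM ih =>
      rw [Finset.sum_Ioc_succ_top hM]
      have hM0 : (0 : ℝ) < M := by exact_mod_cast (by omega : 0 < M)
      have h1 : 1 / ((M + 1 : ℕ) : ℝ) ^ 2 ≤ 1 / M - 1 / ((M + 1 : ℕ) : ℝ) := by
        push_cast
        rw [div_sub_div _ _ hM0.ne' (by positivity), div_le_div_iff₀ (by positivity) (by positivity)]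
        nlinarith
      linarith
  have h1 := key (max N y) (le_max_right _ _)
  have h2 : (0 : ℝ) ≤ 1 / ((max N y : ℕ) : ℝ) := by positivity
  linarith

lemma tail_ge {T : Finset (ℕ × ℕ)} (hT : Prim T) (y : ℕ) (hy : 4 * T.card ^ 2 + 2 * T.card + 1 ≤ y)
    (S : Finset ℕ) (hS : ∀ p ∈ S, p.Prime ∧ y < p) : 1 / 2 ≤ ∏ p ∈ S, loc T p := by
  have hy0 : (0 : ℝ) < y := by exact_mod_cast (by omega : 0 < y)
  have h1 : ∏ p ∈ S, (1 - 2 * (T.card : ℝ) ^ 2 / (p : ℝ) ^ 2) ≤ ∏ p ∈ S, loc T p := by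
    apply Finset.prod_le_prod
    · intro p hp
      obtain ⟨h2, h3⟩ := hS p hp
      have hp0 : (0 : ℝ) < p := by exact_mod_cast h2.pos
      rw [sub_nonneg, div_le_one (by positivity)]
      have h4 : 2 * T.card ≤ p := by nlinarith
      have h5 : (2 : ℝ) * T.card ≤ p := by exact_mod_cast h4
      nlinarith [(Nat.cast_nonneg T.card : (0 : ℝ) ≤ T.card)]
    · intro p hp
      obtain ⟨h2, h3⟩ := hS p hp
      exact loc_ge hT h2 (by nlinarith)
  refine le_trans ?_ h1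
  have h6 := one_sub_sum_le S (fun p => 2 * (T.card : ℝ) ^ 2 / (p : ℝ) ^ 2)
    (fun p _ => by positivity) (fun p hp => by
      obtain ⟨h2, h3⟩ := hS p hp
      have hp0 : (0 : ℝ) < p := by exact_mod_cast h2.pos
      rw [div_le_one (by positivity)]
      have h4 : 2 * T.card ≤ p := by nlinarith
      have h5 : (2 : ℝ) * T.card ≤ p := by exact_mod_cast h4
      nlinarith [(Nat.cast_nonneg T.card : (0 : ℝ) ≤ T.card)])
  refine le_trans ?_ h6
  have h7 : ∑ p ∈ S, 2 * (T.card : ℝ) ^ 2 / (p : ℝ) ^ 2 ≤ 2 * (T.card : ℝ) ^ 2 * (1 / y) := by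
    have := sum_inv_sq S y (by omega) (fun p hp => (hS p hp).2)
    calc ∑ p ∈ S, 2 * (T.card : ℝ) ^ 2 / (p : ℝ) ^ 2 =
          2 * (T.card : ℝ) ^ 2 * ∑ p ∈ S, 1 / (p : ℝ) ^ 2 := by
          rw [mul_sum]
          apply sum_congr rfl
          intro p _
          ring
      _ ≤ _ := by gcongr
  have h8 : 2 * (T.card : ℝ) ^ 2 * (1 / y) ≤ 1 / 2 := by
    rw [mul_one_div, div_le_iff₀ hy0]
    have : (4 * (T.card : ℝ) ^ 2 + 2 * T.card + 1) ≤ y := by exact_mod_cast hy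
    nlinarith [(Nat.cast_nonneg T.card : (0 : ℝ) ≤ T.card)]
  linarith

/-- the primes up to `y` -/
def P0 (y : ℕ) : Finset ℕ := (Ioc 0 y).filter Nat.Prime

lemma SL_ge_half {T : Finset (ℕ × ℕ)} (hT : Prim T) (y : ℕ)
    (hy : 4 * T.card ^ 2 + 2 * T.card + 1 ≤ y) : (1 / 2) * ∏ p ∈ P0 y, loc T p ≤ SL T := by
  classical
  have hm := SL_hasProd hT
  set s0 : Finset Nat.Primes := (P0 y).preimage (fun p : Nat.Primes => (p : ℕ))
    Subtype.val_injective.injOn with hs0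
  have hs0' : ∀ p : Nat.Primes, p ∈ s0 ↔ (p : ℕ) ≤ y := by
    intro p
    rw [hs0]
    refine (mem_preimage (hf := Subtype.val_injective.injOn)).trans ?_
    rw [P0, mem_filter, mem_Ioc]
    exact ⟨fun h => h.1.2, fun h => ⟨⟨p.2.pos, h⟩, p.2⟩⟩
  refine ge_of_tendsto hm ?_
  filter_upwards [Filter.eventually_ge_atTop s0] with s hs
  have hsplit : ∏ p ∈ s, loc T (p : ℕ) =
      (∏ p ∈ s \ s0, loc T (p : ℕ)) * ∏ p ∈ s0, loc T (p : ℕ) := by
    rw [prod_sdiff hs]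
  rw [hsplit]
  have h1 : ∏ p ∈ s0, loc T (p : ℕ) = ∏ p ∈ P0 y, loc T p := by
    rw [hs0]
    refine prod_preimage (fun p : Nat.Primes => (p : ℕ)) _ Subtype.val_injective.injOn
      (fun p : ℕ => loc T p) ?_
    intro p hp hp2
    exact absurd ⟨⟨p, (mem_filter.1 hp).2⟩, rfl⟩ hp2
  rw [h1]
  apply mul_le_mul_of_nonneg_right _ (prod_nonneg fun p hp => loc_nonneg T (mem_filter.1 hp).2)
  have e : ∏ p ∈ s \ s0, loc T (p : ℕ) =
      ∏ p ∈ (s \ s0).image (fun p : Nat.Primes => (p : ℕ)), loc T p := by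
    rw [prod_image]
    intro x _ z _ hxz
    exact Subtype.val_injective hxz
  rw [e]
  apply tail_ge hT y hy
  intro p hp
  obtain ⟨u, hu, rfl⟩ := mem_image.1 hp
  rw [Finset.mem_sdiff, hs0'] at hu
  exact ⟨u.2, by omega⟩

/-- Mertens -/
lemma mert : ∃ C : ℝ, 0 < C ∧ ∀ y : ℕ, 2 ≤ y → ∏ p ∈ P0 y, (1 - 1 / (p : ℝ)) ≤ C / Real.log y := by
  have h := Pool.Agent.H305R2.mertens_three
  have hinv := (h.inv₀ (Real.exp_ne_zero _)).bddAbove_range
  obtain ⟨C2, hC2⟩ := hinv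
  refine ⟨max C2 1, lt_max_of_lt_right one_pos, fun y hy => ?_⟩
  have hlog : 0 < Real.log y := Real.log_pos (by exact_mod_cast (by omega : 1 < y))
  have h2 := hC2 ⟨y, rfl⟩
  have e : ∏ p ∈ (Finset.Icc 1 y).filter Nat.Prime, (1 - (p : ℝ)⁻¹)⁻¹ =
      (∏ p ∈ P0 y, (1 - 1 / (p : ℝ)))⁻¹ := by
    rw [← Finset.prod_inv_distrib]
    unfold P0
    have : Finset.Icc 1 y = Ioc 0 y := by
      ext n; rw [mem_Icc, mem_Ioc]; omega
    rw [this]
    simp only [one_div]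
  simp only [e] at h2
  rw [inv_div, div_inv_eq_mul] at h2
  rw [le_div_iff₀ hlog, mul_comm]
  exact h2.trans (le_max_left _ _)

/-- the sieve product is bounded by the singular series -/
theorem V_le (l : ℕ) : ∃ C : ℝ, 0 < C ∧ ∃ y₀ : ℕ, 2 ≤ y₀ ∧ ∀ T : Finset (ℕ × ℕ), Prim T → T.card = l →
    ∀ y : ℕ, y₀ ≤ y → ∏ p ∈ P0 y, (1 - (w T p : ℝ) / p) ≤ C * SL T / Real.log y ^ l := by
  obtain ⟨C, hC, hm⟩ := mert
  refine ⟨2 * C ^ l, by positivity, 4 * l ^ 2 + 2 * l + 2, by omega, fun T hT hc y hy => ?_⟩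
  have hlog : 0 < Real.log y := Real.log_pos (by exact_mod_cast (by omega : 1 < y))
  have h1 := SL_ge_half hT y (by rw [hc]; omega)
  have h2 := hm y (by omega)
  have hpos : 0 < ∏ p ∈ P0 y, (1 - 1 / (p : ℝ)) := by
    apply prod_pos
    intro p hp
    have hp2 : (2 : ℝ) ≤ p := by exact_mod_cast (mem_filter.1 hp).2.two_le
    rw [sub_pos, div_lt_one (by linarith)]
    linarith
  have e : ∏ p ∈ P0 y, (1 - (w T p : ℝ) / p) =
      (∏ p ∈ P0 y, loc T p) * (∏ p ∈ P0 y, (1 - 1 / (p : ℝ))) ^ l := by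
    rw [← prod_pow, ← prod_mul_distrib]
    apply prod_congr rfl
    intro p hp
    have hp2 : (2 : ℝ) ≤ p := by exact_mod_cast (mem_filter.1 hp).2.two_le
    unfold loc
    rw [hc, div_mul_cancel₀]
    apply pow_ne_zero
    have : 1 / (p : ℝ) ≤ 1 / 2 := one_div_le_one_div_of_le (by norm_num) hp2
    intro h; linarith
  rw [e]
  have h3 : ∏ p ∈ P0 y, loc T p ≤ 2 * SL T := by linarith
  have h4 : (∏ p ∈ P0 y, (1 - 1 / (p : ℝ))) ^ l ≤ (C / Real.log y) ^ l :=
    pow_le_pow_left₀ hpos.le h2 l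
  have h5 : 0 ≤ ∏ p ∈ P0 y, loc T p := prod_nonneg fun p hp => loc_nonneg T (mem_filter.1 hp).2
  have h6 : 0 ≤ 2 * SL T := h5.trans h3
  calc _ ≤ (2 * SL T) * (C / Real.log y) ^ l := mul_le_mul h3 h4 (by positivity) h6
    _ = _ := by rw [div_pow]; ring

/-- no local obstruction: the singular series is bounded from below -/
theorem SL_ge (l : ℕ) : ∃ c : ℝ, 0 < c ∧ ∀ T : Finset (ℕ × ℕ), Prim T → T.card = l →
    (∀ p : ℕ, p.Prime → w T p < p) → c ≤ SL T := by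
  set y : ℕ := 4 * l ^ 2 + 2 * l + 1 with hy
  refine ⟨(1 / 2) * ∏ p ∈ P0 y, (1 / (p : ℝ)), ?_, fun T hT hc hw => ?_⟩
  · have : 0 < ∏ p ∈ P0 y, (1 / (p : ℝ)) := by
      apply prod_pos
      intro p hp
      have : (0 : ℝ) < p := by exact_mod_cast (mem_filter.1 hp).2.pos
      positivity
    positivity
  refine le_trans ?_ (SL_ge_half hT y (by rw [hc]))
  apply mul_le_mul_of_nonneg_left _ (by norm_num)
  apply Finset.prod_le_prod
  · intro p _; positivity
  · intro p hp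
    have hpp := (mem_filter.1 hp).2
    have hp0 : (0 : ℝ) < p := by exact_mod_cast hpp.pos
    have hp2 : (2 : ℝ) ≤ p := by exact_mod_cast hpp.two_le
    have h1 : (w T p : ℝ) + 1 ≤ p := by exact_mod_cast hw p hpp
    unfold loc
    have h2 : 0 < (1 - 1 / (p : ℝ)) ^ T.card := by
      apply pow_pos
      have : 1 / (p : ℝ) ≤ 1 / 2 := one_div_le_one_div_of_le (by norm_num) hp2
      linarith
    have h3 : (1 - 1 / (p : ℝ)) ^ T.card ≤ 1 := by
      apply pow_le_one₀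
      · have : 1 / (p : ℝ) ≤ 1 / 2 := one_div_le_one_div_of_le (by norm_num) hp2
        linarith
      · have : 0 ≤ 1 / (p : ℝ) := by positivity
        linarith
    rw [le_div_iff₀ h2]
    have h4 : 1 / (p : ℝ) ≤ 1 - (w T p : ℝ) / p := by
      rw [le_sub_iff_add_le, ← add_div, div_le_one hp0]
      linarith
    calc 1 / (p : ℝ) * (1 - 1 / (p : ℝ)) ^ T.card ≤ 1 / (p : ℝ) * 1 := by gcongr
      _ ≤ _ := by rw [mul_one]; exact h4

end Pool.Agent.Y840.PT
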