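import Mathlib
import Pool.Agent.Y840.PT.Loc
import Pool.Agent.Y843.HS.Stm
import Pool.Agent.Y959.Sv.Up

set_option autoImplicit false
set_option maxHeartbeats 4000000

/-!
# Narrow progressions in dense sets of almost prime tuples, uniformly in the linear forms
-/

namespace Pool.Agent.Y840.PT

open Finset Filter Topology
open Pool.Agent.W218.MU (w loc SL Prim w_le w_le_p SL_hasProd loc_nonneg SL_nonneg)
open Pool.Agent.Y843.HS (Pr VV S_FIN)

/-- the classes modulo `p` at which some form of `T` is divisible by `p` -/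
def ZT (T : Finset (ℕ × ℕ)) (p : ℕ) : Finset ℕ :=
  (range p).filter (fun n => ∃ L ∈ T, p ∣ L.1 * n + L.2)

lemma card_ZT (T : Finset (ℕ × ℕ)) (p : ℕ) : (ZT T p).card = w T p := rfl

lemma dvd_mod (p u v m : ℕ) : p ∣ u * m + v ↔ p ∣ u * (m % p) + v := by
  rw [← Nat.modEq_zero_iff_dvd, ← Nat.modEq_zero_iff_dvd]
  have h : u * m + v ≡ u * (m % p) + v [MOD p] :=
    ((Nat.mod_modEq m p).symm.mul_left u).add_right v
  exact ⟨fun h1 => h.symm.trans h1, fun h1 => h.trans h1⟩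

lemma mem_ZT (T : Finset (ℕ × ℕ)) {p : ℕ} (hp : 0 < p) (n : ℕ) :
    n % p ∈ ZT T p ↔ ∃ L ∈ T, p ∣ L.1 * n + L.2 := by
  unfold ZT
  rw [mem_filter, mem_range]
  constructor
  · rintro ⟨_, L, hL, h⟩
    exact ⟨L, hL, (dvd_mod p _ _ n).2 h⟩
  · rintro ⟨L, hL, h⟩
    exact ⟨Nat.mod_lt _ hp, L, hL, (dvd_mod p _ _ n).1 h⟩

/-- a power of `X` -/
lemma floor_pow {κ : ℝ} (hκ : 0 < κ) (y₀ : ℕ) : ∀ᶠ X : ℕ in atTop,
    y₀ ≤ ⌊(X : ℝ) ^ κ⌋₊ ∧ 2 ≤ ⌊(X : ℝ) ^ κ⌋₊ ∧
      κ / 2 * Real.log X ≤ Real.log (⌊(X : ℝ) ^ κ⌋₊ : ℕ) := by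
  have tN : Tendsto (fun N : ℕ => (N : ℝ)) atTop atTop := tendsto_natCast_atTop_atTop
  have t1 : Tendsto (fun N : ℕ => (N : ℝ) ^ (κ / 2)) atTop atTop :=
    (tendsto_rpow_atTop (by positivity)).comp tN
  filter_upwards [t1.eventually_ge_atTop (max 2 (y₀ : ℝ)), eventually_ge_atTop 1] with X h1 hX1
  have hX0 : (0 : ℝ) < X := by exact_mod_cast hX1
  set u : ℝ := (X : ℝ) ^ (κ / 2) with hu
  have hu2 : 2 ≤ u := (le_max_left _ _).trans h1
  have huy : (y₀ : ℝ) ≤ u := (le_max_right _ _).trans h1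
  have e : (X : ℝ) ^ κ = u * u := by
    rw [hu, ← Real.rpow_add hX0]; congr 1; ring
  have h3 : u ≤ (⌊(X : ℝ) ^ κ⌋₊ : ℝ) := by
    have := Nat.lt_floor_add_one ((X : ℝ) ^ κ)
    rw [e] at this ⊢
    nlinarith
  refine ⟨?_, ?_, ?_⟩
  · exact_mod_cast huy.trans h3
  · exact_mod_cast hu2.trans h3
  · calc κ / 2 * Real.log X = Real.log u := by rw [hu, Real.log_rpow hX0]
      _ ≤ _ := Real.log_le_log (by linarith) h3

lemma alg (C κ L s : ℝ) (hκ : 0 < κ) (hL : 0 < L) (l : ℕ) :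
    C * s / (κ / 2 * L) ^ l = C * (2 / κ) ^ l * s / L ^ l := by
  rw [mul_pow, div_pow, div_pow]
  field_simp

/-- **Narrow progressions, uniformly in the forms** -/
theorem gen (hF : S_FIN) (k l : ℕ) (κ ρ : ℝ) (hκ : 0 < κ) (hρ : 0 < ρ) :
    ∃ B X₀ : ℕ, ∀ X A : ℕ, X₀ ≤ X → ∀ T : Finset (ℕ × ℕ), Prim T → T.card = l →
      (∀ p : ℕ, p.Prime → w T p < p) → ∀ S : Finset ℕ, S ⊆ Ioc A (A + X) →
      (∀ n ∈ S, ∀ L ∈ T, ∀ p : ℕ, p.Prime → (p : ℝ) ≤ (X : ℝ) ^ κ → ¬ p ∣ L.1 * n + L.2) →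
      ρ * (SL T * (X / Real.log X ^ l)) ≤ S.card →
      ∃ a d : ℕ, 1 ≤ d ∧ (d : ℝ) ≤ Real.log X ^ B ∧ ∀ j < k, a + j * d ∈ S := by
  obtain ⟨C, hC, y₀, hy₀, hV⟩ := V_le l
  set C' : ℝ := C * (2 / κ) ^ l with hC'
  have hC'0 : 0 < C' := by positivity
  obtain ⟨B, X₁, hB⟩ := hF k l κ (ρ / C') hκ (by positivity)
  obtain ⟨X₂, hX₂⟩ := eventually_atTop.1 (floor_pow hκ y₀)
  refine ⟨B, max (max X₁ X₂) 3, fun X A hX T hT hc hadm S hS hfree hcard => ?_⟩
  have hX1 : X₁ ≤ X := ((le_max_left _ _).trans (le_max_left _ _)).trans hX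
  have hX2 : X₂ ≤ X := ((le_max_right _ _).trans (le_max_left _ _)).trans hX
  have hX3 : 3 ≤ X := (le_max_right _ _).trans hX
  obtain ⟨h1, h2, h3⟩ := hX₂ X hX2
  set y : ℕ := ⌊(X : ℝ) ^ κ⌋₊ with hy
  have hL : 0 < Real.log X := Real.log_pos (by exact_mod_cast (by omega : 1 < X))
  have hv := hV T hT hc y h1
  refine hB X A hX1 (ZT T) ?_ S hS ?_ ?_
  · intro p hp _
    refine ⟨?_, hadm p hp, ?_⟩
    · rw [card_ZT, ← hc]; exact w_le hT hp
    · intro c hcz
      exact mem_range.1 (mem_filter.1 hcz).1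
  · intro n hn p hp hpX hmem
    obtain ⟨L, hLT, hd⟩ := (mem_ZT T hp.pos n).1 hmem
    exact hfree n hn L hLT p hp hpX hd
  · refine le_trans ?_ hcard
    have e : VV (ZT T) 0 y = ∏ p ∈ P0 y, (1 - (w T p : ℝ) / p) := rfl
    rw [e]
    have hSL : 0 ≤ SL T := SL_nonneg hT
    have h4 : ∏ p ∈ P0 y, (1 - (w T p : ℝ) / p) ≤ C' * SL T / Real.log X ^ l := by
      refine hv.trans ?_
      have h5 : (κ / 2 * Real.log X) ^ l ≤ Real.log y ^ l := pow_le_pow_left₀ (by positivity) h3 l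
      calc C * SL T / Real.log y ^ l ≤ C * SL T / (κ / 2 * Real.log X) ^ l :=
            div_le_div_of_nonneg_left (by positivity) (by positivity) h5
        _ = C' * SL T / Real.log X ^ l := by
            rw [hC', mul_pow, div_pow, div_pow]
            field_simp
    calc ρ / C' * X * ∏ p ∈ P0 y, (1 - (w T p : ℝ) / p)
        ≤ ρ / C' * X * (C' * SL T / Real.log X ^ l) := by gcongr
      _ = ρ * (SL T * (X / Real.log X ^ l)) := by field_simp

open Classical in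
/-- shifting the variable does not change the number of the classes -/
lemma nu_shift (T : Finset (ℕ × ℕ)) (p A : ℕ) :
    Pool.Agent.Y959.Sv.nu (fun p n => ∃ L ∈ T, p ∣ L.1 * (n + A) + L.2) p = w T p := by
  unfold Pool.Agent.Y959.Sv.nu w
  set q : ℕ → Prop := fun n => ∃ L ∈ T, p ∣ L.1 * n + L.2 with hq
  have hper : Function.Periodic q p := by
    intro n
    simp only [hq, eq_iff_iff]
    apply exists_congr
    intro L
    have e : L.1 * (n + p) + L.2 = (L.1 * n + L.2) + L.1 * p := by ring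
    rw [e, Nat.dvd_add_left (Dvd.intro_left _ rfl)]
  have h1 := Nat.filter_Ico_card_eq_of_periodic A p q hper
  rw [Nat.count_eq_card_filter_range] at h1
  have h2 : ((range p).filter q).card = ((range p).filter (fun n => ∃ L ∈ T, p ∣ L.1 * n + L.2)).card := by
    congr 1
  have h3 : ((range p).filter (fun n => q (n + A))).card = ((Ico A (A + p)).filter q).card := by
    apply card_bij (fun n _ => n + A)
    · intro n hn
      rw [mem_filter, mem_range] at hn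
      rw [mem_filter, mem_Ico]
      exact ⟨⟨by omega, by omega⟩, hn.2⟩
    · intro a _ b _ h
      exact Nat.add_right_cancel h
    · intro b hb
      rw [mem_filter, mem_Ico] at hb
      refine ⟨b - A, ?_, by omega⟩
      rw [mem_filter, mem_range]
      refine ⟨by omega, ?_⟩
      rw [Nat.sub_add_cancel hb.1.1]
      exact hb.2
  have h4 : ((range p).filter (fun n => q (n + A))).card =
      ((range p).filter (fun n => ∃ L ∈ T, p ∣ L.1 * n + L.2)).card := by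
    rw [h3, h1, h2]
  have h5 : ∀ (i j : DecidablePred fun n : ℕ => q (n + A)),
      (@Finset.filter ℕ (fun n => q (n + A)) i (range p)).card =
        (@Finset.filter ℕ (fun n => q (n + A)) j (range p)).card := by
    intro i j
    congr
  rw [← h4]
  exact h5 _ _

open Classical in
/-- **The upper bound sieve, uniformly in the forms** -/
theorem up (l : ℕ) : ∃ C : ℝ, 0 < C ∧ ∃ X₀ : ℕ, ∀ X A : ℕ, X₀ ≤ X → X ≤ A + 1 →
    ∀ T : Finset (ℕ × ℕ), Prim T → T.card = l → (∀ p : ℕ, p.Prime → w T p < p) →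
    (((Ioc A (A + X)).filter (fun n => ∀ L ∈ T, (L.1 * n + L.2).Prime)).card : ℝ) ≤
      C * (SL T * (X / Real.log X ^ l)) := by
  obtain ⟨K, z0, hK, hup⟩ := Pool.Agent.Y959.Sv.up_sieve l
  obtain ⟨C, hC, y₀, hy₀, hV⟩ := V_le l
  obtain ⟨c, hc0, hSLge⟩ := SL_ge l
  set M : ℝ := ∏ p ∈ P0 z0, (p : ℝ) with hM
  have hM0 : 0 < M := prod_pos fun p hp => by exact_mod_cast (mem_filter.1 hp).2.pos
  have hK0 : (0 : ℝ) < K := by exact_mod_cast hK
  set κ : ℝ := 1 / (2 * K) with hκ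
  have hκ0 : 0 < κ := by positivity
  have tN : Tendsto (fun N : ℕ => (N : ℝ)) atTop atTop := tendsto_natCast_atTop_atTop
  have hsmall : ∀ᶠ X : ℕ in atTop, Real.log (X : ℝ) ^ l * √(X : ℝ) ≤ c * X := by
    have h1 : (fun x : ℝ => Real.log x ^ l) =o[atTop] (fun x : ℝ => x ^ (1 / 2 : ℝ)) := by
      have := isLittleO_log_rpow_rpow_atTop (l : ℝ) (show (0 : ℝ) < 1 / 2 by norm_num)
      simpa [Real.rpow_natCast] using this
    have h2 := (h1.bound hc0)
    filter_upwards [tN.eventually h2, eventually_ge_atTop 1] with X hX hX1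
    have hX0 : (0 : ℝ) ≤ X := Nat.cast_nonneg X
    have hlog : 0 ≤ Real.log (X : ℝ) := Real.log_natCast_nonneg X
    rw [Real.norm_of_nonneg (by positivity), Real.norm_of_nonneg (by positivity),
      ← Real.sqrt_eq_rpow] at hX
    calc Real.log (X : ℝ) ^ l * √(X : ℝ) ≤ c * √(X : ℝ) * √(X : ℝ) := by gcongr
      _ = c * X := by rw [mul_assoc, Real.mul_self_sqrt hX0]
  obtain ⟨X₂, hX₂⟩ := eventually_atTop.1 ((floor_pow hκ0 (max y₀ 3)).and hsmall)
  refine ⟨2 * (M * (C * (2 / κ) ^ l)) + 1, by positivity, max X₂ 3,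
    fun X A hX hXA T hT hc hadm => ?_⟩
  obtain ⟨⟨h1, h2, h3⟩, h4⟩ := hX₂ X ((le_max_left _ _).trans hX)
  have hX3 : 3 ≤ X := (le_max_right _ _).trans hX
  set y : ℕ := ⌊(X : ℝ) ^ κ⌋₊ with hy
  have hX0 : (0 : ℝ) < X := by exact_mod_cast (by omega : 0 < X)
  have hL : 0 < Real.log X := Real.log_pos (by exact_mod_cast (by omega : 1 < X))
  have hyK' : (y : ℝ) ^ K ≤ √(X : ℝ) := by
    have h5 : (y : ℝ) ≤ (X : ℝ) ^ κ := Nat.floor_le (by positivity)
    have h6 : ((y : ℝ)) ^ K ≤ √(X : ℝ) := by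
      calc ((y : ℝ)) ^ K ≤ ((X : ℝ) ^ κ) ^ K := pow_le_pow_left₀ (Nat.cast_nonneg _) h5 K
        _ = √(X : ℝ) := by
            rw [← Real.rpow_natCast, ← Real.rpow_mul hX0.le, hκ]
            have e : 1 / (2 * (K : ℝ)) * K = 1 / 2 := by field_simp
            rw [e, ← Real.sqrt_eq_rpow]
    exact h6
  have hyX : y < X := by
    have h5 : (y : ℝ) ≤ √(X : ℝ) := by
      refine le_trans ?_ hyK'
      exact_mod_cast Nat.le_self_pow (by omega) y
    have h6 : √(X : ℝ) < X := by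
      rw [Real.sqrt_lt' hX0]
      have : (3 : ℝ) ≤ X := by exact_mod_cast hX3
      nlinarith
    exact_mod_cast h5.trans_lt h6
  have hyK : y ^ K ≤ X := by
    have h6 : √(X : ℝ) ≤ X := by
      rw [Real.sqrt_le_left hX0.le]
      have : (3 : ℝ) ≤ X := by exact_mod_cast hX3
      nlinarith
    exact_mod_cast hyK'.trans h6
  set Q : ℕ → ℕ → Prop := fun p n => ∃ L ∈ T, p ∣ L.1 * (n + A) + L.2 with hQ
  set P : Finset ℕ := (P0 y).filter (fun p => z0 < p) with hP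
  have hPmem : ∀ p ∈ P, p.Prime ∧ z0 < p ∧ p ≤ y := by
    intro p hp
    rw [hP, mem_filter, P0, mem_filter, mem_Ioc] at hp
    exact ⟨hp.1.2, hp.2, by omega⟩
  have key := hup y X ((le_max_right _ _).trans h1) hyK Q (by
      intro p n
      simp only [hQ]
      apply exists_congr
      intro L
      have e1 : p ∣ L.1 * (n + A) + L.2 ↔ p ∣ L.1 * n + (L.1 * A + L.2) := by
        rw [mul_add, add_assoc]
      have e2 : p ∣ L.1 * (n % p + A) + L.2 ↔ p ∣ L.1 * (n % p) + (L.1 * A + L.2) := by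
        rw [mul_add, add_assoc]
      rw [e1, e2, ← dvd_mod]) P (by
      intro p hp
      obtain ⟨a1, a2, a3⟩ := hPmem p hp
      refine ⟨a1, a2, a3, ?_⟩
      rw [nu_shift, ← hc]
      exact w_le hT a1)
  have hcnt : (((Ioc A (A + X)).filter (fun n => ∀ L ∈ T, (L.1 * n + L.2).Prime)).card : ℝ) ≤
      (((Icc 1 X).filter (fun n : ℕ => ∀ p ∈ P, ¬ Q p n)).card : ℝ) := by
    rw [Nat.cast_le]
    apply card_le_card_of_injOn (fun n => n - A)
    · intro n hn
      rw [mem_coe, mem_filter, mem_Ioc] at hn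
      rw [mem_coe, mem_filter, mem_Icc]
      obtain ⟨⟨n1, n2⟩, n3⟩ := hn
      refine ⟨⟨Nat.le_sub_of_add_le (by omega), Nat.sub_le_of_le_add (by omega)⟩, ?_⟩
      rintro p hp ⟨L, hLT, hd⟩
      obtain ⟨a1, a2, a3⟩ := hPmem p hp
      rw [Nat.sub_add_cancel n1.le] at hd
      have hpr := n3 L hLT
      have := (Nat.prime_dvd_prime_iff_eq a1 hpr).1 hd
      have h5 : n ≤ L.1 * n + L.2 := by
        have := (hT L hLT).1
        nlinarith
      omega
    · intro a ha b hb h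
      rw [mem_coe, mem_filter, mem_Ioc] at ha hb
      have h' : a - A = b - A := h
      obtain ⟨⟨a1, a2⟩, _⟩ := ha
      obtain ⟨⟨b1, b2⟩, _⟩ := hb
      omega
  refine hcnt.trans (le_trans (le_of_eq ?_) (key.trans ?_))
  · congr!
  have hnu : ∏ p ∈ P, (1 - (Pool.Agent.Y959.Sv.nu Q p : ℝ) / p) = ∏ p ∈ P, (1 - (w T p : ℝ) / p) := by
    apply prod_congr rfl
    intro p _
    rw [nu_shift]
  rw [hnu]
  -- compare with the full product
  have hfac : ∀ p ∈ P0 y, 1 / (p : ℝ) ≤ 1 - (w T p : ℝ) / p := by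
    intro p hp
    have hpp := (mem_filter.1 hp).2
    have hp0 : (0 : ℝ) < p := by exact_mod_cast hpp.pos
    have h1 : (w T p : ℝ) + 1 ≤ p := by exact_mod_cast hadm p hpp
    rw [le_sub_iff_add_le, ← add_div, div_le_one hp0]
    linarith
  have hfac0 : ∀ p ∈ P0 y, 0 < 1 - (w T p : ℝ) / p := by
    intro p hp
    have hp0 : (0 : ℝ) < p := by exact_mod_cast (mem_filter.1 hp).2.pos
    exact lt_of_lt_of_le (by positivity) (hfac p hp)
  have hV' := hV T hT hc y ((le_max_left _ _).trans h1)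
  have hsplit : (∏ p ∈ P, (1 - (w T p : ℝ) / p)) *
      ∏ p ∈ (P0 y).filter (fun p => ¬ z0 < p), (1 - (w T p : ℝ) / p) =
      ∏ p ∈ P0 y, (1 - (w T p : ℝ) / p) := prod_filter_mul_prod_filter_not _ _ _
  have hlow : 1 / M ≤ ∏ p ∈ (P0 y).filter (fun p => ¬ z0 < p), (1 - (w T p : ℝ) / p) := by
    have h5 : 1 / M ≤ ∏ p ∈ (P0 y).filter (fun p => ¬ z0 < p), 1 / (p : ℝ) := by
      rw [hM, prod_div_distrib, prod_const_one]
      apply one_div_le_one_div_of_le
      · exact prod_pos fun p hp => by exact_mod_cast (mem_filter.1 (mem_filter.1 hp).1).2.pos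
      · apply prod_le_prod_of_subset_of_one_le
        · intro p hp
          rw [mem_filter, P0, mem_filter, mem_Ioc] at hp
          rw [P0, mem_filter, mem_Ioc]
          exact ⟨⟨hp.1.1.1, by omega⟩, hp.1.2⟩
        · intro p _; positivity
        · intro p hp _
          exact_mod_cast (mem_filter.1 hp).2.one_lt.le
    refine h5.trans ?_
    apply Finset.prod_le_prod
    · intro p _; positivity
    · intro p hp
      exact hfac p (mem_filter.1 hp).1
  have hP0 : 0 ≤ ∏ p ∈ P, (1 - (w T p : ℝ) / p) :=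
    prod_nonneg fun p hp => (hfac0 p (mem_filter.1 hp).1).le
  have hPle : ∏ p ∈ P, (1 - (w T p : ℝ) / p) ≤ M * ∏ p ∈ P0 y, (1 - (w T p : ℝ) / p) := by
    rw [← hsplit]
    calc ∏ p ∈ P, (1 - (w T p : ℝ) / p) = M * ((∏ p ∈ P, (1 - (w T p : ℝ) / p)) * (1 / M)) := by
          field_simp
      _ ≤ _ := by gcongr
  have hSL0 : 0 ≤ SL T := SL_nonneg hT
  have hSLc := hSLge T hT hc hadm
  have h7 : ∏ p ∈ P0 y, (1 - (w T p : ℝ) / p) ≤ C * (2 / κ) ^ l * SL T / Real.log X ^ l := by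
    refine hV'.trans ?_
    have h5 : (κ / 2 * Real.log X) ^ l ≤ Real.log y ^ l := pow_le_pow_left₀ (by positivity) h3 l
    calc C * SL T / Real.log y ^ l ≤ C * SL T / (κ / 2 * Real.log X) ^ l :=
          div_le_div_of_nonneg_left (by positivity) (by positivity) h5
      _ = _ := alg C κ _ _ hκ0 hL l
  have h8 : √(X : ℝ) ≤ SL T * (X / Real.log X ^ l) := by
    rw [← mul_div_assoc, le_div_iff₀ (by positivity), mul_comm]
    refine h4.trans ?_
    gcongr
  calc 2 * (X * ∏ p ∈ P, (1 - (w T p : ℝ) / p)) + √(X : ℝ)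
      ≤ 2 * (X * (M * (C * (2 / κ) ^ l * SL T / Real.log X ^ l))) + SL T * (X / Real.log X ^ l) := by
        gcongr
        exact hPle.trans (mul_le_mul_of_nonneg_left h7 hM0.le)
    _ = _ := by ring

end Pool.Agent.Y840.PT
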