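import Mathlib
import Pool.Agent.Y840.PT.Gen
import Pool.Agent.W218.MU.Dil
import Pool.Agent.Y843.HS.Top

set_option autoImplicit false
set_option maxHeartbeats 4000000

/-!
# Averages over families of tuples, and progressions for a positive proportion of the tuples
-/

namespace Pool.Agent.Y840.PT

open Finset Filter Topology
open Pool.Agent.W218.MU (w loc SL Prim w_le w_le_p SL_hasProd loc_nonneg SL_nonneg em)

open Classical in
/-- most of the mass of a large average comes from large values, given an upper bound -/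
lemma mass {ι : Type*} (F : Finset ι) (s N : ι → ℝ) (M C₁ θ δ : ℝ) (hM : 0 < M) (hC : 0 < C₁)
    (hδ : 0 ≤ δ) (hs : ∀ T ∈ F, 0 ≤ s T) (hup : ∀ T ∈ F, N T ≤ C₁ * (s T * M))
    (hlow : θ * M * ∑ T ∈ F, s T ≤ ∑ T ∈ F, N T) :
    (θ - δ) / C₁ * ∑ T ∈ F, s T ≤ ∑ T ∈ F.filter (fun T => 0 < s T ∧ δ * (s T * M) ≤ N T), s T := by
  set G := F.filter (fun T => 0 < s T ∧ δ * (s T * M) ≤ N T) with hG
  have h1 : ∑ T ∈ F, N T ≤ ∑ T ∈ G, C₁ * (s T * M) + ∑ T ∈ F, δ * (s T * M) := by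
    rw [← sum_filter_add_sum_filter_not F (fun T => 0 < s T ∧ δ * (s T * M) ≤ N T) N]
    apply add_le_add
    · apply sum_le_sum
      intro T hT
      exact hup T (mem_filter.1 hT).1
    · calc ∑ T ∈ F.filter (fun T => ¬ (0 < s T ∧ δ * (s T * M) ≤ N T)), N T
          ≤ ∑ T ∈ F.filter (fun T => ¬ (0 < s T ∧ δ * (s T * M) ≤ N T)), δ * (s T * M) := by
            apply sum_le_sum
            intro T hT
            rw [mem_filter] at hT
            obtain ⟨hTF, h2⟩ := hT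
            rcases (hs T hTF).eq_or_lt with h3 | h3
            · have := hup T hTF
              rw [← h3] at this ⊢
              simpa using this
            · by_contra h4
              exact h2 ⟨h3, (not_le.1 h4).le⟩
        _ ≤ ∑ T ∈ F, δ * (s T * M) := by
            apply sum_le_sum_of_subset_of_nonneg (filter_subset _ _)
            intro T hT _
            have := hs T hT
            positivity
  have h2 : ∑ T ∈ G, C₁ * (s T * M) = C₁ * M * ∑ T ∈ G, s T := by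
    rw [mul_sum]; apply sum_congr rfl; intro T _; ring
  have h3 : ∑ T ∈ F, δ * (s T * M) = δ * M * ∑ T ∈ F, s T := by
    rw [mul_sum]; apply sum_congr rfl; intro T _; ring
  rw [h2, h3] at h1
  have h4 : θ * M * ∑ T ∈ F, s T ≤ C₁ * M * ∑ T ∈ G, s T + δ * M * ∑ T ∈ F, s T := hlow.trans h1
  rw [div_mul_eq_mul_div, div_le_iff₀ hC]
  have h5 : M * ((θ - δ) * ∑ T ∈ F, s T) ≤ M * ((∑ T ∈ G, s T) * C₁) := by nlinarith
  exact le_of_mul_le_mul_left h5 hM

/-- a local obstruction kills the singular series -/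
lemma SL_zero {T : Finset (ℕ × ℕ)} (hT : Prim T) {p : ℕ} (hp : p.Prime) (h : w T p = p) : SL T = 0 := by
  have hm := SL_hasProd hT
  have h0 : loc T p = 0 := by
    unfold loc
    rw [h, div_self (by exact_mod_cast hp.ne_zero), sub_self, zero_div]
  refine tendsto_nhds_unique hm ?_
  refine tendsto_const_nhds.congr' ?_
  filter_upwards [Filter.eventually_ge_atTop {(⟨p, hp⟩ : Nat.Primes)}] with s hs
  symm
  exact prod_eq_zero (hs (mem_singleton_self _)) h0

lemma adm_of_pos {T : Finset (ℕ × ℕ)} (hT : Prim T) (h : 0 < SL T) : ∀ p : ℕ, p.Prime → w T p < p := by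
  intro p hp
  refine lt_of_le_of_ne (w_le_p T p) fun h1 => ?_
  rw [SL_zero hT hp h1] at h
  exact lt_irrefl _ h

/-- `U` contains `m` terms of an arithmetic progression with positive difference at most `D` -/
def AP (m : ℕ) (D : ℝ) (U : Finset ℕ) : Prop :=
  ∃ a d : ℕ, 1 ≤ d ∧ (d : ℝ) ≤ D ∧ ∀ j < m, a + j * d ∈ U

lemma AP.mono {m : ℕ} {D D' : ℝ} {U : Finset ℕ} (h : AP m D U) (hD : D ≤ D') : AP m D' U := by
  obtain ⟨a, d, h1, h2, h3⟩ := h
  exact ⟨a, d, h1, h2.trans hD, h3⟩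

lemma AP.sub {m : ℕ} {D : ℝ} {U V : Finset ℕ} (h : AP m D U) (hU : U ⊆ V) : AP m D V := by
  obtain ⟨a, d, h1, h2, h3⟩ := h
  exact ⟨a, d, h1, h2, fun j hj => hU (h3 j hj)⟩

/-- the engine without hypothesis -/
theorem gen' (k l : ℕ) (κ ρ : ℝ) (hκ : 0 < κ) (hρ : 0 < ρ) :
    ∃ B X₀ : ℕ, ∀ X A : ℕ, X₀ ≤ X → ∀ T : Finset (ℕ × ℕ), Prim T → T.card = l →
      0 < SL T → ∀ S : Finset ℕ, S ⊆ Ioc A (A + X) →
      (∀ n ∈ S, ∀ L ∈ T, ∀ p : ℕ, p.Prime → (p : ℝ) ≤ (X : ℝ) ^ κ → ¬ p ∣ L.1 * n + L.2) →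
      ρ * (SL T * (X / Real.log X ^ l)) ≤ S.card → AP k (Real.log X ^ B) S := by
  obtain ⟨B, X₀, h⟩ := gen Pool.Agent.Y843.HS.fin k l κ ρ hκ hρ
  exact ⟨B, X₀, fun X A hX T hT hc hpos => h X A hX T hT hc (adm_of_pos hT hpos)⟩

lemma w_em (T : Finset ℕ) {p : ℕ} (hp : p.Prime) :
    w (T.map em) p = Pool.Agent.W218.MU.wD T p := Pool.Agent.W218.MU.w_map T hp

/-- almost prime dilates -/
theorem dil_gen (m l : ℕ) (κ ρ : ℝ) (hκ : 0 < κ) (hρ : 0 < ρ) :
    ∃ B x₀ : ℕ, ∀ x : ℕ, x₀ ≤ x → ∀ T : Finset ℕ, T.card = l → (∀ r ∈ T, 1 ≤ r) →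
      0 < Pool.Agent.W218.MU.SD T → ∀ U : Finset ℕ, U ⊆ Ico x (2 * x) →
      (∀ q ∈ U, ∀ r ∈ T, ∀ p : ℕ, p.Prime → p ∣ q * r + 1 → (x : ℝ) ^ κ < p) →
      ρ * (Pool.Agent.W218.MU.SD T * (x / Real.log x ^ l)) ≤ U.card → AP m (Real.log x ^ B) U := by
  obtain ⟨B, X₀, h⟩ := gen' m l κ ρ hκ hρ
  refine ⟨B, max X₀ 1, fun x hx T hc hr hpos U hU hfree hcard => ?_⟩
  have hx1 : 1 ≤ x := (le_max_right _ _).trans hx
  refine h x (x - 1) ((le_max_left _ _).trans hx) (T.map em)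
    (Pool.Agent.W218.MU.prim_map hr) (by rw [card_map, hc]) (by rwa [Pool.Agent.W218.MU.SL_map]) U ?_ ?_ ?_
  · intro q hq
    have := mem_Ico.1 (hU hq)
    rw [mem_Ioc]
    omega
  · intro q hq L hL p hp hpx hd
    rw [Finset.mem_map] at hL
    obtain ⟨r, hrT, rfl⟩ := hL
    have e : p ∣ q * r + 1 := by
      rw [mul_comm q r]; exact hd
    exact absurd (hfree q hq r hrT p hp e) (not_lt.2 hpx)
  · rwa [Pool.Agent.W218.MU.SL_map]

open Pool.Agent.W218.MU (SD ND)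

open Classical in
/-- the prime points of the dilates -/
def QD (x : ℕ) (T : Finset ℕ) : Finset ℕ := (Ico x (2 * x)).filter (fun q => ∀ r ∈ T, (q * r + 1).Prime)

lemma QD_card (x : ℕ) (T : Finset ℕ) : (QD x T).card = ND x T := by
  unfold QD ND
  congr!

/-- upper bound for dilates -/
theorem dil_up (l : ℕ) : ∃ C : ℝ, 0 < C ∧ ∃ x₀ : ℕ, ∀ x : ℕ, x₀ ≤ x → ∀ T : Finset ℕ, T.card = l →
    (∀ r ∈ T, 1 ≤ r) → (ND x T : ℝ) ≤ C * (SD T * (x / Real.log x ^ l)) := by
  classical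
  obtain ⟨C, hC, X₀, h⟩ := up l
  refine ⟨C, hC, max X₀ (l + 2), fun x hx T hc hr => ?_⟩
  have hx1 : l + 2 ≤ x := (le_max_right _ _).trans hx
  have hT := Pool.Agent.W218.MU.prim_map hr
  by_cases hadm : ∀ p : ℕ, p.Prime → w (T.map em) p < p
  · have h1 := h x (x - 1) ((le_max_left _ _).trans hx) (by omega) (T.map em) hT
      (by rw [card_map, hc]) hadm
    rw [Pool.Agent.W218.MU.SL_map] at h1
    refine le_trans ?_ h1
    rw [← QD_card, Nat.cast_le]
    apply card_le_card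
    intro q hq
    unfold QD at hq
    rw [mem_filter, mem_Ico] at hq
    rw [mem_filter, mem_Ioc]
    refine ⟨by omega, fun L hL => ?_⟩
    rw [Finset.mem_map] at hL
    obtain ⟨r, hrT, rfl⟩ := hL
    have := hq.2 r hrT
    rwa [mul_comm] at this
  · push Not at hadm
    obtain ⟨p, hp, hwp⟩ := hadm
    have hw : w (T.map em) p = p := le_antisymm (w_le_p _ _) hwp
    have hpl : p ≤ l := by
      have := w_le hT hp
      rw [hw, card_map, hc] at this
      exact this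
    have h0 : SD T = 0 := by
      rw [← Pool.Agent.W218.MU.SL_map]; exact SL_zero hT hp hw
    rw [h0, zero_mul, mul_zero]
    have h1 : ND x T = 0 := by
      rw [← QD_card, card_eq_zero]
      unfold QD
      rw [filter_eq_empty_iff]
      intro q hq hall
      rw [mem_Ico] at hq
      -- all classes mod p are hit
      have h2 : (range p).filter (fun n => ∃ L ∈ T.map em, p ∣ L.1 * n + L.2) = range p := by
        apply eq_of_subset_of_card_le (filter_subset _ _)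
        rw [card_range]
        exact hwp
      have h3 : q % p ∈ (range p).filter (fun n => ∃ L ∈ T.map em, p ∣ L.1 * n + L.2) := by
        rw [h2, mem_range]; exact Nat.mod_lt _ hp.pos
      obtain ⟨L, hL, hd⟩ := (mem_filter.1 h3).2
      rw [Finset.mem_map] at hL
      obtain ⟨r, hrT, rfl⟩ := hL
      have hd2 : p ∣ r * q + 1 := (dvd_mod p r 1 q).2 hd
      have hpr := hall r hrT
      rw [mul_comm] at hpr
      have he := (Nat.prime_dvd_prime_iff_eq hp hpr).1 hd2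
      have : q ≤ r * q := Nat.le_mul_of_pos_left _ (hr r hrT)
      omega
    rw [h1]; simp

open Classical in
/-- **Progressions for a positive proportion of the dilates** -/
theorem dil_avg (k : ℕ) (lam : ℝ) (hlam : (k : ℝ) < lam) : ∃ c δ : ℝ, 0 < c ∧ 0 < δ ∧
    ∀ (C : ℝ) (m : ℕ) (ρ : ℝ), 0 ≤ C → 0 < ρ → ∃ B x₀ : ℕ, ∀ x : ℕ, x₀ ≤ x → ∀ A : Finset ℕ,
    (∀ r ∈ A, 1 ≤ r ∧ (r : ℝ) ≤ Real.log x ^ C) →
    lam * Real.log x ≤ ∑ r ∈ A, (r : ℝ) / Nat.totient r →
    c * ∑ T ∈ A.powersetCard (k + 1), SD T ≤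
      ∑ T ∈ (A.powersetCard (k + 1)).filter (fun T => 0 < SD T ∧
        δ * (SD T * (x / Real.log x ^ (k + 1))) ≤ ((QD x T).card : ℝ) ∧
        ∀ U ⊆ QD x T, ρ * ((QD x T).card : ℝ) ≤ (U.card : ℝ) → AP m (Real.log x ^ B) U), SD T := by
  have hlam0 : 0 < lam := lt_of_le_of_lt (Nat.cast_nonneg k) hlam
  set Pi0 := ∏ i ∈ range k, (1 - (i + 1 : ℝ) / lam) with hPi0
  have hPi00 : 0 < Pi0 := by
    apply prod_pos
    intro i hi
    have hi' : (i + 1 : ℝ) ≤ k := by exact_mod_cast mem_range.1 hi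
    rw [sub_pos, div_lt_one hlam0]
    linarith
  obtain ⟨κ, hκ, hdil⟩ := Pool.Agent.W218.MU.dilMain k
  obtain ⟨C₁, hC₁, x₁, hup⟩ := dil_up (k + 1)
  refine ⟨(Pi0 / 2 - Pi0 / 4) / C₁, Pi0 / 4, by
    apply div_pos _ hC₁; linarith, by positivity, fun C m ρ hC hρ => ?_⟩
  obtain ⟨x₂, h2⟩ := hdil lam (Pi0 / 2) C hlam hC (by linarith)
  obtain ⟨B, x₃, h3⟩ := dil_gen m (k + 1) (1 / 2) (ρ * (Pi0 / 4)) (by norm_num) (by positivity)
  refine ⟨B, max (max x₁ x₂) (max x₃ 3), fun x hx A hA hsum => ?_⟩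
  have hx1 : x₁ ≤ x := ((le_max_left _ _).trans (le_max_left _ _)).trans hx
  have hx2 : x₂ ≤ x := ((le_max_right _ _).trans (le_max_left _ _)).trans hx
  have hx3 : x₃ ≤ x := ((le_max_left _ _).trans (le_max_right _ _)).trans hx
  have hx4 : 3 ≤ x := ((le_max_right _ _).trans (le_max_right _ _)).trans hx
  have hL : 0 < Real.log x := Real.log_pos (by exact_mod_cast (by omega : 1 < x))
  have hx0 : (0 : ℝ) < x := by exact_mod_cast (by omega : 0 < x)
  have hM : 0 < (x : ℝ) / Real.log x ^ (k + 1) := by positivity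
  have hlow := (h2 x hx2 A hA).1 hsum
  have hTA : ∀ T ∈ A.powersetCard (k + 1), T.card = k + 1 ∧ ∀ r ∈ T, 1 ≤ r := by
    intro T hT
    rw [mem_powersetCard] at hT
    exact ⟨hT.2, fun r hr => (hA r (hT.1 hr)).1⟩
  have hS0 : ∀ T ∈ A.powersetCard (k + 1), 0 ≤ SD T := by
    intro T hT
    rw [← Pool.Agent.W218.MU.SL_map]
    exact SL_nonneg (Pool.Agent.W218.MU.prim_map (hTA T hT).2)
  have key := mass (A.powersetCard (k + 1)) SD (fun T => (ND x T : ℝ)) (x / Real.log x ^ (k + 1)) C₁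
    (Pi0 / 2) (Pi0 / 4) hM hC₁ (by positivity) hS0
    (fun T hT => hup x hx1 T (hTA T hT).1 (hTA T hT).2) hlow
  refine key.trans ?_
  apply sum_le_sum_of_subset_of_nonneg
  · intro T hT
    rw [mem_filter] at hT ⊢
    obtain ⟨hTF, hpos, hge⟩ := hT
    refine ⟨hTF, hpos, by rw [QD_card]; exact hge, fun U hU hcard => ?_⟩
    refine h3 x hx3 T (hTA T hTF).1 (hTA T hTF).2 hpos U (hU.trans (filter_subset _ _)) ?_ ?_
    · intro q hq r hrT p hp hd
      have hq' := hU hq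
      unfold QD at hq'
      rw [mem_filter, mem_Ico] at hq'
      have he := (Nat.prime_dvd_prime_iff_eq hp (hq'.2 r hrT)).1 hd
      have h5 : x ≤ q * r := by
        have := (hTA T hTF).2 r hrT
        nlinarith [hq'.1.1]
      have h6 : x < p := by omega
      have h7 : (x : ℝ) < p := by exact_mod_cast h6
      refine lt_of_le_of_lt ?_ h7
      have h8 : (1 : ℝ) ≤ x := by exact_mod_cast (by omega : 1 ≤ x)
      calc (x : ℝ) ^ (1 / 2 : ℝ) ≤ (x : ℝ) ^ (1 : ℝ) := Real.rpow_le_rpow_of_exponent_le h8 (by norm_num)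
        _ = x := Real.rpow_one _
    · refine le_trans ?_ hcard
      rw [QD_card]
      calc ρ * (Pi0 / 4) * (SD T * (x / Real.log x ^ (k + 1)))
          = ρ * (Pi0 / 4 * (SD T * (x / Real.log x ^ (k + 1)))) := by ring
        _ ≤ _ := by gcongr
  · intro T hT _
    exact hS0 T (mem_filter.1 hT).1

end Pool.Agent.Y840.PT
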