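import Mathlib
import Pool.Agent.Y840.PT.Avg

set_option autoImplicit false
set_option maxHeartbeats 4000000

/-!
# Lower bound sieve, uniformly in the forms; progressions of almost primes
-/

namespace Pool.Agent.Y840.PT

open Finset Filter Topology
open Pool.Agent.W218.MU (w loc SL Prim w_le w_le_p SL_hasProd loc_nonneg SL_nonneg em)
open Pool.Agent.Y843.HS (Pr VV Sv S_FIN)

lemma prod_low (l : ℕ) (s : Finset ℕ) (z : ℕ) (hz : l ≤ z) (hs : ∀ p ∈ s, l < p ∧ p ≤ z) (f : ℕ → ℝ)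
    (hf : ∀ p ∈ s, f p ≤ l) : 1 / (z : ℝ) ^ l ≤ ∏ p ∈ s, (1 - f p / p) := by
  classical
  have h1 : ∏ p ∈ s, (1 - (l : ℝ) / p) ≤ ∏ p ∈ s, (1 - f p / p) := by
    apply Finset.prod_le_prod
    · intro p hp
      have h2 : (l : ℝ) < p := by exact_mod_cast (hs p hp).1
      have h3 : (0 : ℝ) < p := lt_of_le_of_lt (Nat.cast_nonneg l) h2
      rw [sub_nonneg, div_le_one h3]
      exact h2.le
    · intro p hp
      have h2 : (l : ℝ) < p := by exact_mod_cast (hs p hp).1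
      have h3 : (0 : ℝ) < p := lt_of_le_of_lt (Nat.cast_nonneg l) h2
      have := div_le_div_of_nonneg_right (hf p hp) h3.le
      linarith
  refine le_trans ?_ h1
  have hsub : s ⊆ Ioc l z := fun p hp => mem_Ioc.2 (hs p hp)
  have h2 : ∏ p ∈ Ioc l z, (1 - (l : ℝ) / p) ≤ ∏ p ∈ s, (1 - (l : ℝ) / p) := by
    rw [← prod_sdiff hsub]
    have h3 : ∏ p ∈ Ioc l z \ s, (1 - (l : ℝ) / p) ≤ 1 := by
      apply prod_le_one
      · intro p hp
        have h2 : (l : ℝ) < p := by exact_mod_cast (mem_Ioc.1 (Finset.mem_sdiff.1 hp).1).1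
        have h3 : (0 : ℝ) < p := lt_of_le_of_lt (Nat.cast_nonneg l) h2
        rw [sub_nonneg, div_le_one h3]
        exact h2.le
      · intro p hp
        have : (0 : ℝ) ≤ (l : ℝ) / p := by positivity
        linarith
    have h4 : 0 ≤ ∏ p ∈ s, (1 - (l : ℝ) / p) := by
      apply prod_nonneg
      intro p hp
      have h2 : (l : ℝ) < p := by exact_mod_cast (hs p hp).1
      have h3 : (0 : ℝ) < p := lt_of_le_of_lt (Nat.cast_nonneg l) h2
      rw [sub_nonneg, div_le_one h3]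
      exact h2.le
    nlinarith
  refine le_trans ?_ h2
  -- telescoping
  have key : ∀ z : ℕ, l ≤ z → ∏ p ∈ Ioc l z, (1 - (l : ℝ) / p) = 1 / (z.choose l : ℝ) := by
    intro z hz
    induction z, hz using Nat.le_induction with
    | base => simp
    | succ z hz ih =>
      rw [Finset.prod_Ioc_succ_top (by omega), ih]
      have h5 := Nat.choose_mul_succ_eq z l
      have h6 : (z.choose l : ℝ) * (z + 1) = ((z + 1).choose l : ℝ) * (z + 1 - l) := by
        have : ((z.choose l * (z + 1) : ℕ) : ℝ) = (((z + 1).choose l * (z + 1 - l) : ℕ) : ℝ) := by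
          exact_mod_cast h5
        rw [Nat.cast_mul, Nat.cast_mul, Nat.cast_sub (by omega)] at this
        push_cast at this
        exact this
      have h7 : (0 : ℝ) < (z.choose l : ℝ) := by exact_mod_cast Nat.choose_pos hz
      have h8 : (0 : ℝ) < ((z + 1).choose l : ℝ) := by exact_mod_cast Nat.choose_pos (by omega)
      have h9 : (0 : ℝ) < (z : ℝ) + 1 := by positivity
      push_cast
      rw [one_sub_div h9.ne', div_mul_div_comm, div_eq_div_iff (by positivity) h8.ne']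
      linarith
  rw [key z hz]
  have h7 : (0 : ℝ) < (z.choose l : ℝ) := by exact_mod_cast Nat.choose_pos hz
  apply one_div_le_one_div_of_le h7
  exact_mod_cast Nat.choose_le_pow z l

/-- a class which avoids all small primes -/
lemma good_class (T : Finset (ℕ × ℕ)) (hadm : ∀ p : ℕ, p.Prime → w T p < p) (s : ℕ) :
    ∃ a : ℕ, ∀ p ∈ P0 s, ∀ L ∈ T, ¬ p ∣ L.1 * a + L.2 := by
  classical
  have hex : ∀ p ∈ P0 s, ∃ n : ℕ, ∀ L ∈ T, ¬ p ∣ L.1 * n + L.2 := by
    intro p hp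
    have hpp := (mem_filter.1 hp).2
    by_contra hcon
    push Not at hcon
    have : w T p = p := by
      unfold w
      rw [filter_true_of_mem, card_range]
      intro n _
      exact hcon n
    exact absurd (hadm p hpp) (by omega)
  choose! c hc using hex
  obtain ⟨a, ha⟩ := Nat.chineseRemainderOfFinset c id (P0 s)
    (fun p hp => (mem_filter.1 hp).2.ne_zero) (fun p hp q hq hpq =>
      (Nat.coprime_primes (mem_filter.1 hp).2 (mem_filter.1 hq).2).2 hpq)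
  refine ⟨a, fun p hp L hL hd => ?_⟩
  apply hc p hp L hL
  have h1 : a ≡ c p [MOD p] := ha p hp
  rw [dvd_mod, ← show a % p = c p % p from h1, ← dvd_mod]
  exact hd

open Classical in
/-- **The lower bound sieve, uniformly in the forms** -/
theorem low (l : ℕ) : ∃ κ c : ℝ, 0 < κ ∧ 0 < c ∧ ∃ X₀ : ℕ, ∀ X A : ℕ, X₀ ≤ X →
    ∀ T : Finset (ℕ × ℕ), Prim T → T.card = l → (∀ p : ℕ, p.Prime → w T p < p) →
    c * X * VV (ZT T) 0 ⌊(X : ℝ) ^ κ⌋₊ ≤
      (((Ioc A (A + X)).filter (fun n => ∀ L ∈ T, ∀ p : ℕ, p.Prime → (p : ℝ) ≤ (X : ℝ) ^ κ →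
        ¬ p ∣ L.1 * n + L.2)).card : ℝ) := by
  obtain ⟨C, hC1, hfl⟩ := Pool.Agent.Y151.HS.flc
  set b : ℕ := 4 * (C * (l + 1)) with hb
  have hb1 : 1 ≤ b := by
    have : 1 ≤ C * (l + 1) := Nat.mul_pos hC1 (by omega)
    omega
  set s : ℕ := C * (l + 1) with hs
  set E : ℕ := C * b with hE
  have hE1 : 1 ≤ E := Nat.mul_pos hC1 hb1
  obtain ⟨c₁, hc₁, R₀, hden⟩ := Pool.Agent.Y79.HS.den l 3
  set D : ℕ := ∏ p ∈ P0 s, p with hD
  have hD1 : 1 ≤ D := Nat.pos_of_ne_zero (prod_ne_zero_iff.2 fun p hp => (mem_filter.1 hp).2.ne_zero)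
  have hD0 : (0 : ℝ) < D := by exact_mod_cast hD1
  set κ : ℝ := 1 / (8 * E) with hκ
  have hE0 : (0 : ℝ) < E := by exact_mod_cast hE1
  have hκ0 : 0 < κ := by positivity
  have tN : Tendsto (fun N : ℕ => (N : ℝ)) atTop atTop := tendsto_natCast_atTop_atTop
  have t1 : Tendsto (fun N : ℕ => (N : ℝ) ^ (1 / 4 : ℝ)) atTop atTop :=
    (tendsto_rpow_atTop (by norm_num)).comp tN
  obtain ⟨X₂, hX₂⟩ := eventually_atTop.1 ((floor_pow hκ0 (max R₀ (max (s + 1) 4))).and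
    (t1.eventually_ge_atTop (4 * (D : ℝ))))
  refine ⟨κ, c₁ / (4 * D), hκ0, by positivity, max X₂ 3, fun X A hX T hT hc hadm => ?_⟩
  obtain ⟨⟨h1, h2, h3⟩, h4⟩ := hX₂ X ((le_max_left _ _).trans hX)
  have hX3 : 3 ≤ X := (le_max_right _ _).trans hX
  have hX0 : (0 : ℝ) < X := by exact_mod_cast (by omega : 0 < X)
  have hX1 : (1 : ℝ) ≤ X := by exact_mod_cast (by omega : 1 ≤ X)
  set R : ℕ := ⌊(X : ℝ) ^ κ⌋₊ with hR
  have hRR₀ : R₀ ≤ R := (le_max_left _ _).trans h1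
  have hRs : s + 1 ≤ R := ((le_max_left _ _).trans (le_max_right _ _)).trans h1
  have hR4 : 4 ≤ R := ((le_max_right _ _).trans (le_max_right _ _)).trans h1
  have hRle : (R : ℝ) ≤ (X : ℝ) ^ κ := Nat.floor_le (by positivity)
  -- the double power
  set J : ℕ := Nat.log 2 (Nat.log 2 R) + 1 with hJ
  have hRz : R < 2 ^ 2 ^ J := Pool.Agent.Y959.Sv.JJ_lt R
  have hzR : 2 ^ 2 ^ J ≤ R ^ 2 := Pool.Agent.Y959.Sv.JJ_le R (by omega)
  set z : ℕ := 2 ^ 2 ^ J with hz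
  obtain ⟨a, ha⟩ := good_class T hadm s
  have hmemPr : ∀ p, p ∈ Pr s z ↔ (s < p ∧ p ≤ z) ∧ p.Prime := by
    intro p; rw [Pr, mem_filter, mem_Ioc]
  have key := hfl l b s J (by omega) le_rfl (ZT T) (by
      intro p hp
      rw [hmemPr] at hp
      refine ⟨?_, fun c hcz => mem_range.1 (mem_filter.1 hcz).1⟩
      rw [card_ZT, ← hc]
      exact w_le hT hp.2) D a A X hD1 (by
      intro p hp hd
      rw [hmemPr] at hp
      obtain ⟨q, hq, hpq⟩ := (Prime.dvd_finsetProd_iff hp.2.prime _).1 hd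
      have := (Nat.prime_dvd_prime_iff_eq hp.2 (mem_filter.1 hq).2).1 hpq
      have h5 := (mem_Ioc.1 (mem_filter.1 hq).1).2
      omega)
  set V := ∏ p ∈ Pr s z, (1 - ((ZT T p).card : ℝ) / p) with hV
  -- size of the error term
  have hzX : (z : ℝ) ^ E ≤ (X : ℝ) ^ (1 / 4 : ℝ) := by
    have h5 : (z : ℝ) ≤ ((X : ℝ) ^ κ) ^ 2 := by
      calc (z : ℝ) ≤ (R : ℝ) ^ 2 := by exact_mod_cast hzR
        _ ≤ _ := pow_le_pow_left₀ (Nat.cast_nonneg _) hRle 2
    calc (z : ℝ) ^ E ≤ (((X : ℝ) ^ κ) ^ 2) ^ E := pow_le_pow_left₀ (Nat.cast_nonneg _) h5 E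
      _ = (X : ℝ) ^ (1 / 4 : ℝ) := by
          rw [← pow_mul, ← Real.rpow_natCast, ← Real.rpow_mul hX0.le]
          congr 1
          rw [hκ]
          push_cast
          field_simp
          norm_num
  have hVlow : 1 / (z : ℝ) ^ l ≤ V := by
    apply prod_low l (Pr s z) z _ _ (fun p => ((ZT T p).card : ℝ))
    · intro p hp
      rw [hmemPr] at hp
      have := w_le hT hp.2
      rw [hc] at this
      exact_mod_cast this
    · have : l + 1 ≤ s := Nat.le_mul_of_pos_left _ hC1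
      omega
    · intro p hp
      rw [hmemPr] at hp
      have : l + 1 ≤ s := Nat.le_mul_of_pos_left _ hC1
      exact ⟨by omega, hp.1.2⟩
  have hz1 : (1 : ℝ) ≤ z := by exact_mod_cast (by omega : 1 ≤ z)
  have hzl : (z : ℝ) ^ l ≤ (X : ℝ) ^ (1 / 4 : ℝ) := by
    refine le_trans (pow_le_pow_right₀ hz1 ?_) hzX
    have : l + 1 ≤ C * (l + 1) := Nat.le_mul_of_pos_left _ hC1
    calc l ≤ b := by omega
      _ ≤ E := Nat.le_mul_of_pos_left _ hC1
  have hV0 : 0 < V := lt_of_lt_of_le (by positivity) hVlow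
  set Y : ℝ := (X : ℝ) ^ (1 / 4 : ℝ) with hY
  have hY0 : 0 < Y := by positivity
  have hYX : (X : ℝ) = Y * Y * Y * Y := by
    rw [hY, ← Real.rpow_add hX0, ← Real.rpow_add hX0, ← Real.rpow_add hX0]
    norm_num
  have hY1 : 1 ≤ Y := Real.one_le_rpow hX1 (by norm_num)
  have herr : (z : ℝ) ^ (C * b) ≤ (1 / 4) * ((X : ℝ) / D * V) := by
    have h5 : 1 / Y ≤ V := by
      refine le_trans ?_ hVlow
      exact one_div_le_one_div_of_le (by positivity) hzl
    calc (z : ℝ) ^ (C * b) ≤ Y := hzX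
      _ ≤ (1 / 4) * ((X : ℝ) / D * (1 / Y)) := by
          have e : (1 / 4) * ((X : ℝ) / D * (1 / Y)) = Y * Y * Y / (4 * D) := by
            rw [hYX]; field_simp
          rw [e, le_div_iff₀ (by positivity)]
          nlinarith [mul_pos hY0 hY0]
      _ ≤ _ := by gcongr
  have hhalf : (1 / 2 : ℝ) ^ b ≤ 1 / 2 := by
    calc (1 / 2 : ℝ) ^ b ≤ (1 / 2 : ℝ) ^ 1 := pow_le_pow_of_le_one (by norm_num) (by norm_num) hb1
      _ = 1 / 2 := pow_one _
  have hXDV : 0 < (X : ℝ) / D * V := by positivity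
  have hcount : (1 / 4) * ((X : ℝ) / D * V) ≤
      (((Ioc A (A + X)).filter (fun x => x % D = a % D ∧ ∀ p ∈ Pr s z, x % p ∉ ZT T p)).card : ℝ) := by
    have h5 := (abs_le.1 key).1
    have h6 : (1 / 2 : ℝ) ^ b * ((X : ℝ) / D * V) ≤ 1 / 2 * ((X : ℝ) / D * V) :=
      mul_le_mul_of_nonneg_right hhalf hXDV.le
    have h7 : ((2 : ℝ) ^ 2 ^ J) ^ (C * b) = (z : ℝ) ^ (C * b) := by
      rw [hz]; push_cast; rfl
    rw [h7] at h5
    have h8 : (((Ioc A (A + X)).filter (fun x => x % D = a % D ∧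
        ∀ p ∈ Pr s z, x % p ∉ ZT T p)).card : ℝ) = (((Ioc A (A + X)).filter (fun x => x % D = a % D ∧
        ∀ p ∈ Pr s (2 ^ 2 ^ J), x % p ∉ ZT T p)).card : ℝ) := by
      congr!
    rw [h8]
    linarith
  have hsub : ((Ioc A (A + X)).filter (fun x => x % D = a % D ∧ ∀ p ∈ Pr s z, x % p ∉ ZT T p)) ⊆
      ((Ioc A (A + X)).filter (fun n => ∀ L ∈ T, ∀ p : ℕ, p.Prime → (p : ℝ) ≤ (X : ℝ) ^ κ →
        ¬ p ∣ L.1 * n + L.2)) := by
    intro n hn
    rw [mem_filter] at hn ⊢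
    obtain ⟨hn1, hn2, hn3⟩ := hn
    refine ⟨hn1, fun L hL p hp hpX hd => ?_⟩
    have hpR : p ≤ R := Nat.le_floor hpX
    by_cases hps : p ≤ s
    · have hp0 : p ∈ P0 s := by
        rw [P0, mem_filter, mem_Ioc]; exact ⟨⟨hp.pos, hps⟩, hp⟩
      apply ha p hp0 L hL
      have h5 : n ≡ a [MOD D] := hn2
      have h6 : n ≡ a [MOD p] := h5.of_dvd (dvd_prod_of_mem _ hp0)
      rw [dvd_mod, ← show n % p = a % p from h6, ← dvd_mod]
      exact hd
    · apply hn3 p ((hmemPr p).2 ⟨⟨by omega, by omega⟩, hp⟩)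
      exact (mem_ZT T hp.pos n).2 ⟨L, hL, hd⟩
  -- the product
  have hVV : c₁ * VV (ZT T) 0 R ≤ V := by
    have h5 : c₁ ≤ VV (ZT T) R z := by
      apply hden R z hRR₀ _ (ZT T)
      · intro p hp
        rw [Pr, mem_filter, mem_Ioc] at hp
        refine ⟨?_, fun c hcz => mem_range.1 (mem_filter.1 hcz).1⟩
        rw [card_ZT, ← hc]
        exact w_le hT hp.2
      · calc z ≤ R ^ 2 := hzR
          _ ≤ R ^ 3 := Nat.pow_le_pow_right (by omega) (by norm_num)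
    have hfac : ∀ p : ℕ, p.Prime → 0 ≤ 1 - ((ZT T p).card : ℝ) / p ∧ 1 - ((ZT T p).card : ℝ) / p ≤ 1 := by
      intro p hp
      have hp0 : (0 : ℝ) < p := by exact_mod_cast hp.pos
      have h6 : ((ZT T p).card : ℝ) ≤ p := by exact_mod_cast w_le_p T p
      have h7 : 0 ≤ ((ZT T p).card : ℝ) / p := div_nonneg (Nat.cast_nonneg _) hp0.le
      have h8 : ((ZT T p).card : ℝ) / p ≤ 1 := by rwa [div_le_one hp0]
      exact ⟨by linarith, by linarith⟩
    have h6 : V = (∏ p ∈ Pr s R, (1 - ((ZT T p).card : ℝ) / p)) * VV (ZT T) R z := by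
      rw [hV, VV, ← prod_union]
      · congr 1
        ext p
        rw [mem_union, hmemPr, Pr, Pr, mem_filter, mem_filter, mem_Ioc, mem_Ioc]
        constructor
        · rintro ⟨h, hp⟩
          by_cases h9 : p ≤ R
          · exact Or.inl ⟨⟨h.1, h9⟩, hp⟩
          · exact Or.inr ⟨⟨by omega, h.2⟩, hp⟩
        · rintro (⟨h, hp⟩ | ⟨h, hp⟩)
          · exact ⟨⟨h.1, by omega⟩, hp⟩
          · exact ⟨⟨by omega, h.2⟩, hp⟩
      · rw [disjoint_left]
        intro p hp hp'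
        rw [Pr, mem_filter, mem_Ioc] at hp hp'
        omega
    have h7 : VV (ZT T) 0 R ≤ ∏ p ∈ Pr s R, (1 - ((ZT T p).card : ℝ) / p) := by
      unfold VV
      have hsub2 : Pr s R ⊆ Pr 0 R := by
        intro p hp
        rw [Pr, mem_filter, mem_Ioc] at hp ⊢
        exact ⟨⟨by omega, hp.1.2⟩, hp.2⟩
      rw [← prod_sdiff hsub2]
      have h8 : ∏ p ∈ Pr 0 R \ Pr s R, (1 - ((ZT T p).card : ℝ) / p) ≤ 1 := by
        apply prod_le_one
        · intro p hp
          exact (hfac p (mem_filter.1 (Finset.mem_sdiff.1 hp).1).2).1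
        · intro p hp
          exact (hfac p (mem_filter.1 (Finset.mem_sdiff.1 hp).1).2).2
      have h9 : 0 ≤ ∏ p ∈ Pr s R, (1 - ((ZT T p).card : ℝ) / p) := by
        apply prod_nonneg
        intro p hp
        exact (hfac p (mem_filter.1 hp).2).1
      nlinarith
    have h8 : 0 ≤ VV (ZT T) 0 R := by
      unfold VV
      apply prod_nonneg
      intro p hp
      exact (hfac p (mem_filter.1 hp).2).1
    rw [h6]
    calc c₁ * VV (ZT T) 0 R = VV (ZT T) 0 R * c₁ := mul_comm _ _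
      _ ≤ (∏ p ∈ Pr s R, (1 - ((ZT T p).card : ℝ) / p)) * VV (ZT T) R z :=
          mul_le_mul h7 h5 hc₁.le (h8.trans h7)
  calc c₁ / (4 * D) * X * VV (ZT T) 0 R = (1 / 4) * ((X : ℝ) / D * (c₁ * VV (ZT T) 0 R)) := by
        field_simp
    _ ≤ (1 / 4) * ((X : ℝ) / D * V) := by gcongr
    _ ≤ _ := hcount
    _ ≤ _ := by exact_mod_cast card_le_card hsub

/-- **Narrow progressions of almost primes, uniformly in the forms** -/
theorem alm (l : ℕ) : ∃ κ : ℝ, 0 < κ ∧ ∀ m : ℕ, ∃ B X₀ : ℕ, ∀ X A : ℕ, X₀ ≤ X →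
    ∀ T : Finset (ℕ × ℕ), Prim T → T.card = l → (∀ p : ℕ, p.Prime → w T p < p) →
    ∃ a d : ℕ, 1 ≤ d ∧ (d : ℝ) ≤ Real.log X ^ B ∧ ∀ j < m, a + j * d ∈ Ioc A (A + X) ∧
      ∀ L ∈ T, ∀ p : ℕ, p.Prime → p ∣ L.1 * (a + j * d) + L.2 → (X : ℝ) ^ κ < p := by
  classical
  obtain ⟨κ, c, hκ, hc, X₁, hlow⟩ := low l
  refine ⟨κ, hκ, fun m => ?_⟩
  obtain ⟨B, X₂, hB⟩ := Pool.Agent.Y843.HS.fin m l κ c hκ hc
  refine ⟨B, max X₁ X₂, fun X A hX T hT hcard hadm => ?_⟩
  set U := (Ioc A (A + X)).filter (fun n => ∀ L ∈ T, ∀ p : ℕ, p.Prime → (p : ℝ) ≤ (X : ℝ) ^ κ →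
        ¬ p ∣ L.1 * n + L.2) with hU
  obtain ⟨a, d, h1, h2, h3⟩ := hB X A ((le_max_right _ _).trans hX) (ZT T) (by
      intro p hp _
      refine ⟨?_, hadm p hp, fun c hcz => mem_range.1 (mem_filter.1 hcz).1⟩
      rw [card_ZT, ← hcard]
      exact w_le hT hp) U (filter_subset _ _) (by
      intro n hn p hp hpX hmem
      obtain ⟨L, hL, hd⟩ := (mem_ZT T hp.pos n).1 hmem
      exact (mem_filter.1 hn).2 L hL p hp hpX hd) (by
      have := hlow X A ((le_max_left _ _).trans hX) T hT hcard hadm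
      convert this using 2)
  refine ⟨a, d, h1, h2, fun j hj => ?_⟩
  have h4 := mem_filter.1 (h3 j hj)
  refine ⟨h4.1, fun L hL p hp hd => ?_⟩
  by_contra hcon
  exact h4.2 L hL p hp (not_lt.1 hcon) hd

end Pool.Agent.Y840.PT
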