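import Mathlib
import Pool.Agent.Y840.PT.Alm
import Pool.Agent.W70.HR.Asm

set_option autoImplicit false
set_option maxHeartbeats 4000000

/-!
# Shifts: progressions of prime tuples
-/

namespace Pool.Agent.Y840.PT

open Finset Filter Topology
open Pool.Agent.W218.MU (w loc SL Prim w_le w_le_p SL_hasProd loc_nonneg SL_nonneg em)
open Pool.Agent.H387R2.Uni (CT locT nuT CT_hasProd)

/-- the forms `n + t` -/
def sh : ℕ ↪ ℕ × ℕ := ⟨fun t => (1, t), fun _ _ h => (Prod.mk.inj h).2⟩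

lemma prim_sh (T : Finset ℕ) : Prim (T.map sh) := by
  intro L hL
  rw [Finset.mem_map] at hL
  obtain ⟨r, _, rfl⟩ := hL
  exact ⟨le_rfl, Nat.coprime_one_left r⟩

lemma w_sh (T : Finset ℕ) {p : ℕ} (hp : 0 < p) : w (T.map sh) p = nuT T p := by
  unfold w nuT
  apply card_nbij' (fun n => (p - n) % p) (fun c => (p - c) % p)
  · intro n hn
    rw [mem_coe, mem_filter, mem_range] at hn
    obtain ⟨hnp, L, hL, hd⟩ := hn
    rw [Finset.mem_map] at hL
    obtain ⟨t, ht, rfl⟩ := hL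
    rw [mem_coe, mem_image]
    refine ⟨t, ht, ?_⟩
    have hd' : p ∣ n + t := by simpa [sh] using hd
    have h1 : n + t ≡ n + (p - n) [MOD p] := by
      have e : n + (p - n) = p := by omega
      rw [e]
      exact (Nat.modEq_zero_iff_dvd.2 hd').trans (Nat.modEq_zero_iff_dvd.2 dvd_rfl).symm
    exact Nat.ModEq.add_left_cancel' n h1
  · intro c hc
    rw [mem_coe, mem_image] at hc
    obtain ⟨t, ht, rfl⟩ := hc
    rw [mem_coe, mem_filter, mem_range]
    refine ⟨Nat.mod_lt _ hp, sh t, mem_map_of_mem sh ht, ?_⟩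
    change p ∣ 1 * ((p - t % p) % p) + t
    rw [one_mul]
    have hlt := Nat.mod_lt t hp
    have h1 : (p - t % p) % p + t ≡ (p - t % p) + t % p [MOD p] :=
      Nat.ModEq.add (Nat.mod_modEq _ _) (Nat.mod_modEq _ _).symm
    have e : (p - t % p) + t % p = p := by omega
    rw [e] at h1
    exact Nat.modEq_zero_iff_dvd.1 (h1.trans (Nat.modEq_zero_iff_dvd.2 dvd_rfl))
  · intro n hn
    rw [mem_coe, mem_filter, mem_range] at hn
    change (p - (p - n) % p) % p = n
    rcases Nat.eq_zero_or_pos n with h | h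
    · subst h
      rw [Nat.sub_zero, Nat.mod_self, Nat.sub_zero, Nat.mod_self]
    · rw [Nat.mod_eq_of_lt (show p - n < p by omega), Nat.mod_eq_of_lt (by omega)]
      omega
  · intro c hc
    rw [mem_coe, mem_image] at hc
    obtain ⟨t, ht, rfl⟩ := hc
    have hlt := Nat.mod_lt t hp
    change (p - (p - t % p) % p) % p = t % p
    rcases Nat.eq_zero_or_pos (t % p) with h | h
    · rw [h, Nat.sub_zero, Nat.mod_self, Nat.sub_zero, Nat.mod_self]
    · rw [Nat.mod_eq_of_lt (show p - t % p < p by omega), Nat.mod_eq_of_lt (by omega)]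
      omega

lemma SL_sh (T : Finset ℕ) : SL (T.map sh) = CT T := by
  unfold SL CT
  apply tprod_congr
  intro p
  unfold loc locT
  rw [w_sh T p.2.pos, card_map]

/-- almost prime shifts -/
theorem sh_gen (m l : ℕ) (κ ρ : ℝ) (hκ : 0 < κ) (hρ : 0 < ρ) :
    ∃ B X₀ : ℕ, ∀ X A : ℕ, X₀ ≤ X → ∀ T : Finset ℕ, T.card = l → 0 < CT T →
      ∀ U : Finset ℕ, U ⊆ Ioc A (A + X) →
      (∀ n ∈ U, ∀ t ∈ T, ∀ p : ℕ, p.Prime → p ∣ n + t → (X : ℝ) ^ κ < p) →
      ρ * (CT T * (X / Real.log X ^ l)) ≤ U.card → AP m (Real.log X ^ B) U := by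
  obtain ⟨B, X₀, h⟩ := gen' m l κ ρ hκ hρ
  refine ⟨B, X₀, fun X A hX T hc hpos U hU hfree hcard => ?_⟩
  refine h X A hX (T.map sh) (prim_sh T) (by rw [card_map, hc]) (by rwa [SL_sh]) U hU ?_ ?_
  · intro n hn L hL p hp hpx hd
    rw [Finset.mem_map] at hL
    obtain ⟨t, ht, rfl⟩ := hL
    have e : p ∣ n + t := by
      have : p ∣ 1 * n + t := hd
      rwa [one_mul] at this
    exact absurd (hfree n hn t ht p hp e) (not_lt.2 hpx)
  · rwa [SL_sh]

/-- the singular series of an admissible set is bounded from below -/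
theorem CT_ge (l : ℕ) : ∃ c : ℝ, 0 < c ∧ ∀ T : Finset ℕ, T.card = l → 0 < CT T → c ≤ CT T := by
  obtain ⟨c, hc, h⟩ := SL_ge l
  refine ⟨c, hc, fun T hT hpos => ?_⟩
  rw [← SL_sh] at hpos ⊢
  exact h (T.map sh) (prim_sh T) (by rw [card_map, hT]) (adm_of_pos (prim_sh T) hpos)

open Pool.Agent.W70.HR (cT)

open Classical in
/-- the `n ∈ [X, 2X)` for which all `n + t`, `t ∈ T`, are prime -/
noncomputable def QT (X : ℕ) (T : Finset ℕ) : Finset ℕ :=
  (Ico X (2 * X)).filter (fun n => ∀ t ∈ T, (n + t).Prime)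

lemma QT_card (X : ℕ) (T : Finset ℕ) : (QT X T).card = cT X T := rfl

end Pool.Agent.Y840.PT
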