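import Mathlib
import Pool.Agent.Y840.PT.Shift

set_option autoImplicit false
set_option maxHeartbeats 4000000

/-!
# Dense sets of short shifts: progressions of prime tuples
-/

namespace Pool.Agent.Y840.PT

open Finset Filter Topology
open Pool.Agent.H387R2.Uni (CT locT nuT CT_hasProd)
open Pool.Agent.W70.HR (cT)

open Classical in
/-- the `1 ≤ n ≤ x` for which all `n + t`, `t ∈ T`, are prime -/
noncomputable def Pts (x : ℝ) (T : Finset ℕ) : Finset ℕ :=
  (Icc 1 ⌊x⌋₊).filter (fun n => ∀ t ∈ T, (n + t).Prime)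

lemma cT_le_Pts {X : ℕ} {x : ℝ} (hx : (2 * X : ℝ) ≤ x) (hX : 1 ≤ X) (T : Finset ℕ) :
    cT X T ≤ (Pts x T).card := by
  classical
  have h0 : 2 * X ≤ ⌊x⌋₊ := Nat.le_floor (by exact_mod_cast hx)
  unfold cT Pts
  apply card_le_card
  intro n hn
  rw [mem_filter, mem_Ico] at hn
  rw [mem_filter, mem_Icc]
  exact ⟨⟨by omega, by omega⟩, hn.2⟩

lemma sqrt_small (j : ℕ) (c : ℝ) (hc : 0 < c) : ∀ᶠ x : ℝ in atTop, √x ≤ c * (x / Real.log x ^ j) := by
  have h1 : (fun x : ℝ => Real.log x ^ j) =o[atTop] (fun x : ℝ => x ^ (1 / 2 : ℝ)) := by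
    have := isLittleO_log_rpow_rpow_atTop (j : ℝ) (show (0 : ℝ) < 1 / 2 by norm_num)
    simpa [Real.rpow_natCast] using this
  filter_upwards [h1.bound hc, eventually_ge_atTop (3 : ℝ)] with x hX hx3
  have hx0 : 0 < x := by linarith
  have hlog : 0 < Real.log x := Real.log_pos (by linarith)
  rw [Real.norm_of_nonneg (by positivity), Real.norm_of_nonneg (by positivity),
    ← Real.sqrt_eq_rpow] at hX
  rw [← mul_div_assoc, le_div_iff₀ (by positivity)]
  calc √x * Real.log x ^ j ≤ √x * (c * √x) := by gcongr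
    _ = c * (√x * √x) := by ring
    _ = c * x := by rw [Real.mul_self_sqrt hx0.le]

/-- every tuple which occurs with the right order: dense subsets contain progressions -/
theorem one_tuple (l m : ℕ) (δ ρ : ℝ) (hδ : 0 < δ) (hρ : 0 < ρ) : ∃ B : ℕ, ∃ x₀ : ℝ,
    ∀ x : ℝ, x₀ ≤ x → ∀ T : Finset ℕ, T.card = l → T.Nonempty → 0 < CT T →
    δ * CT T * (x / Real.log x ^ l) ≤ ((Pts x T).card : ℝ) →
    ∀ U ⊆ Pts x T, ρ * ((Pts x T).card : ℝ) ≤ (U.card : ℝ) → AP m (Real.log x ^ B) U := by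
  obtain ⟨c, hc, hCT⟩ := CT_ge l
  obtain ⟨B, X₀, h⟩ := sh_gen m l (1 / 2) (ρ * δ / 2 ^ (l + 1)) (by norm_num) (by positivity)
  obtain ⟨x₁, hx₁⟩ := eventually_atTop.1 (sqrt_small l (ρ * δ / 2 * c) (by positivity))
  refine ⟨B, max (X₀ + 1) (max x₁ 16), fun x hx T hT hne hpos hbig U hU hcard => ?_⟩
  have hxX : (X₀ : ℝ) + 1 ≤ x := (le_max_left _ _).trans hx
  have hx1 : x₁ ≤ x := ((le_max_left _ _).trans (le_max_right _ _)).trans hx
  have hx16 : 16 ≤ x := ((le_max_right _ _).trans (le_max_right _ _)).trans hx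
  have hx0 : 0 < x := by linarith
  set X : ℕ := ⌊x⌋₊ with hX
  have hXx : (X : ℝ) ≤ x := Nat.floor_le hx0.le
  have hxX' : x < X + 1 := Nat.lt_floor_add_one x
  have hX15 : (15 : ℝ) < X := by linarith
  have hX0 : (0 : ℝ) < X := by linarith
  have hXX₀ : X₀ ≤ X := by
    have : (X₀ : ℝ) < X + 1 := by linarith
    have : X₀ < X + 1 := by exact_mod_cast this
    omega
  have hlogX : 0 < Real.log X := Real.log_pos (by linarith)
  have hlogx : 0 < Real.log x := Real.log_pos (by linarith)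
  have hlogle : Real.log X ≤ Real.log x := Real.log_le_log hX0 hXx
  have hlog2 : Real.log x ≤ 2 * Real.log X := by
    have h1 : x ≤ (X : ℝ) ^ 2 := by nlinarith
    calc Real.log x ≤ Real.log ((X : ℝ) ^ 2) := Real.log_le_log hx0 h1
      _ = 2 * Real.log X := by rw [Real.log_pow]; norm_num
  set U' := U.filter (fun n : ℕ => (X : ℝ) ^ (1 / 2 : ℝ) < (n : ℝ)) with hU'
  have hsub : U' ⊆ U := filter_subset _ _
  have hUmem : ∀ n ∈ U, (1 ≤ n ∧ n ≤ X) ∧ ∀ t ∈ T, (n + t).Prime := by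
    intro n hn
    have := hU hn
    unfold Pts at this
    rwa [mem_filter, mem_Icc] at this
  -- few elements are removed
  have hrem : (U.card : ℝ) - √x ≤ U'.card := by
    have h1 : U.card = U'.card + (U.filter (fun n : ℕ => ¬ (X : ℝ) ^ (1 / 2 : ℝ) < (n : ℝ))).card := by
      rw [hU', card_filter_add_card_filter_not]
    have h2 : ((U.filter (fun n : ℕ => ¬ (X : ℝ) ^ (1 / 2 : ℝ) < (n : ℝ))).card : ℝ) ≤ √x := by
      have h3 : U.filter (fun n : ℕ => ¬ (X : ℝ) ^ (1 / 2 : ℝ) < (n : ℝ)) ⊆ Icc 1 ⌊√x⌋₊ := by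
        intro n hn
        rw [mem_filter] at hn
        rw [mem_Icc]
        refine ⟨(hUmem n hn.1).1.1, Nat.le_floor ?_⟩
        have h4 := not_lt.1 hn.2
        rw [← Real.sqrt_eq_rpow] at h4
        exact h4.trans (Real.sqrt_le_sqrt hXx)
      have h5 := card_le_card h3
      rw [Nat.card_Icc] at h5
      have h6 : ((U.filter (fun n : ℕ => ¬ (X : ℝ) ^ (1 / 2 : ℝ) < (n : ℝ))).card : ℝ) ≤ (⌊√x⌋₊ : ℝ) := by
        exact_mod_cast (by omega : (U.filter (fun n : ℕ => ¬ (X : ℝ) ^ (1 / 2 : ℝ) < (n : ℝ))).card ≤ ⌊√x⌋₊)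
      exact h6.trans (Nat.floor_le (Real.sqrt_nonneg x))
    rw [h1]
    push_cast
    linarith
  have hsq := hx₁ x hx1
  have hCTc := hCT T hT hpos
  have hfrac : (X : ℝ) / Real.log X ^ l ≤ 2 ^ l * (x / Real.log x ^ l) := by
    rw [← mul_div_assoc, div_le_div_iff₀ (by positivity) (by positivity)]
    have h1 : Real.log x ^ l ≤ (2 * Real.log X) ^ l := pow_le_pow_left₀ hlogx.le hlog2 l
    rw [mul_pow] at h1
    calc (X : ℝ) * Real.log x ^ l ≤ x * (2 ^ l * Real.log X ^ l) := by gcongr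
      _ = _ := by ring
  have hAP : AP m (Real.log X ^ B) U' := by
    refine h X 0 hXX₀ T hT hpos U' ?_ ?_ ?_
    · intro n hn
      have := hUmem n (hsub hn)
      rw [mem_Ioc]
      omega
    · intro n hn t ht p hp hd
      have h1 := (hUmem n (hsub hn)).2 t ht
      have h2 := (Nat.prime_dvd_prime_iff_eq hp h1).1 hd
      rw [hU', mem_filter] at hn
      rw [h2]
      push_cast
      have h3 : (0 : ℝ) ≤ t := Nat.cast_nonneg t
      linarith [hn.2]
    · refine le_trans ?_ hrem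
      have h1 : ρ * (δ * CT T * (x / Real.log x ^ l)) ≤ U.card :=
        (mul_le_mul_of_nonneg_left hbig hρ.le).trans hcard
      have h2 : √x ≤ ρ * δ / 2 * (CT T * (x / Real.log x ^ l)) := by
        refine hsq.trans ?_
        rw [mul_assoc]
        gcongr
      have h3 : ρ * δ / 2 ^ (l + 1) * (CT T * ((X : ℝ) / Real.log X ^ l)) ≤
          ρ * δ / 2 * (CT T * (x / Real.log x ^ l)) := by
        calc ρ * δ / 2 ^ (l + 1) * (CT T * ((X : ℝ) / Real.log X ^ l))
            ≤ ρ * δ / 2 ^ (l + 1) * (CT T * (2 ^ l * (x / Real.log x ^ l))) := by gcongr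
          _ = _ := by rw [pow_succ]; field_simp
      have h4 : ρ * (δ * CT T * (x / Real.log x ^ l)) =
          ρ * δ / 2 * (CT T * (x / Real.log x ^ l)) + ρ * δ / 2 * (CT T * (x / Real.log x ^ l)) := by
        ring
      linarith
  exact (hAP.sub hsub).mono (pow_le_pow_left₀ hlogX.le hlogle B)

open Classical in
/-- **Dense sets of short shifts** -/
theorem dense_final (k : ℕ) (Λ η ε : ℝ) (hη : 0 < η) (hε : 0 < ε) : ∃ δ : ℝ, 0 < δ ∧
    ∀ (m : ℕ) (ρ : ℝ), 0 < ρ → ∃ (B : ℕ) (x₀ : ℝ), ∀ x : ℝ, x₀ ≤ x → ∀ A : Finset ℕ,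
      (∀ a ∈ A, 1 ≤ a ∧ (a : ℝ) ≤ Λ * Real.log x) → η * Real.log x ≤ A.card →
      ((1 / 4 : ℝ) ^ k - ε) * ∑ T ∈ A.powersetCard (k + 1), CT T ≤
        ∑ T ∈ (A.powersetCard (k + 1)).filter (fun T => 0 < CT T ∧
          δ * CT T * (x / Real.log x ^ (k + 1)) ≤ ((Pts x T).card : ℝ) ∧
          ∀ U ⊆ Pts x T, ρ * ((Pts x T).card : ℝ) ≤ (U.card : ℝ) → AP m (Real.log x ^ B) U),
          CT T := by
  obtain ⟨δ, hδ, X₀, hX₀⟩ := Pool.Agent.W70.HR.fin_final k (2 * max Λ 1) η ε hη hε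
  refine ⟨δ / 3, by positivity, fun m ρ hρ => ?_⟩
  obtain ⟨B, x₁, h1⟩ := one_tuple (k + 1) m (δ / 3) ρ (by positivity) hρ
  refine ⟨B, max x₁ (2 * X₀ + 20), fun x hx A hA hcard => ?_⟩
  have hxx₁ : x₁ ≤ x := (le_max_left _ _).trans hx
  have hx := (le_max_right _ _).trans hx
  obtain ⟨X, hX⟩ : ∃ X : ℕ, X = ⌊x / 2⌋₊ := ⟨_, rfl⟩
  have hxpos : (20 : ℝ) ≤ x := by
    have : (0 : ℝ) ≤ X₀ := Nat.cast_nonneg _
    linarith
  have hXx : (X : ℝ) ≤ x / 2 := by rw [hX]; exact Nat.floor_le (by linarith)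
  have hXx' : x / 2 < X + 1 := by rw [hX]; exact Nat.lt_floor_add_one _
  have hX1 : (2 * X : ℝ) ≤ x := by linarith
  have hX6r : (6 : ℝ) ≤ X := by
    have : (9 : ℝ) < X := by linarith
    linarith
  have hX6 : 6 ≤ X := by exact_mod_cast hX6r
  have hXX₀ : X₀ ≤ X := by
    have h : (X₀ : ℝ) ≤ X := by linarith
    exact_mod_cast h
  have hxr : (X : ℝ) ≤ x := by linarith
  have hx3 : x ≤ 3 * X := by linarith
  have hL : 0 < Real.log X := Real.log_pos (by linarith)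
  have hLx : Real.log X ≤ Real.log x := Real.log_le_log (by linarith) hxr
  have hL2 : Real.log x ≤ 2 * Real.log X := by
    have h1 : x ≤ (X : ℝ) ^ 2 := by nlinarith
    calc Real.log x ≤ Real.log ((X : ℝ) ^ 2) := Real.log_le_log (by linarith) h1
      _ = 2 * Real.log X := by rw [Real.log_pow]; norm_num
  have hLx0 : 0 < Real.log x := lt_of_lt_of_le hL hLx
  have hA' : ∀ a ∈ A, 1 ≤ a ∧ (a : ℝ) ≤ 2 * max Λ 1 * Real.log X := by
    intro a ha
    obtain ⟨h1, h2⟩ := hA a ha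
    refine ⟨h1, h2.trans ?_⟩
    calc Λ * Real.log x ≤ max Λ 1 * Real.log x :=
          mul_le_mul_of_nonneg_right (le_max_left _ _) hLx0.le
      _ ≤ max Λ 1 * (2 * Real.log X) := by
          have : (0 : ℝ) ≤ max Λ 1 := le_trans zero_le_one (le_max_right _ _)
          gcongr
      _ = 2 * max Λ 1 * Real.log X := by ring
  have hcard' : η * Real.log X ≤ A.card := le_trans (by gcongr) hcard
  have key := hX₀ X hXX₀ A hA' hcard'
  refine key.trans ?_
  rw [← sum_filter_add_sum_filter_not _ (fun T => 0 < CT T)]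
  have h0 : ∑ T ∈ ((A.powersetCard (k + 1)).filter (fun T =>
      δ * (CT T * (X / Real.log X ^ (k + 1))) ≤ (cT X T : ℝ))).filter (fun T => ¬ 0 < CT T), CT T ≤ 0 := by
    apply sum_nonpos
    intro T hT
    exact not_lt.1 (mem_filter.1 hT).2
  refine (add_le_of_nonpos_right h0).trans ?_
  refine sum_le_sum_of_subset_of_nonneg (f := CT) ?_ ?_
  · intro T hT
    rw [mem_filter, mem_filter] at hT
    obtain ⟨⟨hT1, hT2⟩, hT3⟩ := hT
    rw [mem_filter]
    have h2' : (cT X T : ℝ) ≤ ((Pts x T).card : ℝ) := by exact_mod_cast cT_le_Pts hX1 (by omega) T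
    have hbig : δ / 3 * CT T * (x / Real.log x ^ (k + 1)) ≤ ((Pts x T).card : ℝ) := by
      refine le_trans ?_ (hT2.trans h2')
      have h4 : x / Real.log x ^ (k + 1) ≤ 3 * X / Real.log X ^ (k + 1) := by
        apply div_le_div₀ (by positivity) hx3 (by positivity)
        exact pow_le_pow_left₀ hL.le hLx _
      calc δ / 3 * CT T * (x / Real.log x ^ (k + 1)) ≤
          δ / 3 * CT T * (3 * X / Real.log X ^ (k + 1)) := by gcongr
        _ = δ * (CT T * (X / Real.log X ^ (k + 1))) := by ring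
    have hTc := (mem_powersetCard.1 hT1).2
    refine ⟨hT1, hT3, hbig, ?_⟩
    exact h1 x hxx₁ T hTc (card_pos.1 (by omega)) hT3 hbig
  · intro T hT _
    exact (mem_filter.1 hT).2.1.le

end Pool.Agent.Y840.PT
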